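import Mathlib

/-!
# Finite abelian groups determined by their orders and ranks
-/

namespace Pool.Agent.Lib.RkQ.Iso2

/-- Number of ones and twos in a multiset all of whose elements are one or two. -/
theorem cnt12 (s : Multiset ℕ) : (∀ x ∈ s, 0 < x ∧ x ≤ 2) →
    s.count 1 + s.count 2 = s.card ∧ s.count 1 + 2 * s.count 2 = s.sum := by
  induction s using Multiset.induction_on with
  | empty => intro _; simp
  | cons a s ih =>
    intro h
    have h1 := ih (fun x hx => h x (Multiset.mem_cons_of_mem hx))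
    have h2 := h a (Multiset.mem_cons_self a s)
    have h3 : a = 1 ∨ a = 2 := by omega
    rcases h3 with h3 | h3
    · subst h3
      simp only [Multiset.count_cons, Multiset.card_cons, Multiset.sum_cons]
      simp only [if_true, show ¬ ((2 : ℕ) = 1) by omega, if_false]
      omega
    · subst h3
      simp only [Multiset.count_cons, Multiset.card_cons, Multiset.sum_cons]
      simp only [if_true, show ¬ ((1 : ℕ) = 2) by omega, if_false]
      omega

theorem card_le_sum (s : Multiset ℕ) : (∀ x ∈ s, 0 < x) → s.card ≤ s.sum := by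
  induction s using Multiset.induction_on with
  | empty => intro _; simp
  | cons a s ih =>
    intro h
    have h1 := ih (fun x hx => h x (Multiset.mem_cons_of_mem hx))
    have h2 := h a (Multiset.mem_cons_self a s)
    simp only [Multiset.card_cons, Multiset.sum_cons]
    omega

theorem le_two (s : Multiset ℕ) (hs : ∀ x ∈ s, 0 < x) (h : s.sum ≤ s.card + 1) :
    ∀ x ∈ s, x ≤ 2 := by
  intro x hx
  obtain ⟨t, rfl⟩ := Multiset.exists_cons_of_mem hx
  have h1 := card_le_sum t (fun y hy => hs y (Multiset.mem_cons_of_mem hy))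
  simp only [Multiset.card_cons, Multiset.sum_cons] at h
  omega

theorem ms12 {s t : Multiset ℕ} (hs : ∀ x ∈ s, 0 < x ∧ x ≤ 2) (ht : ∀ x ∈ t, 0 < x ∧ x ≤ 2)
    (h1 : s.card = t.card) (h2 : s.sum = t.sum) : s = t := by
  have hs' := cnt12 s hs
  have ht' := cnt12 t ht
  ext a
  by_cases h : a = 1
  · subst h; omega
  by_cases h' : a = 2
  · subst h'; omega
  rw [Multiset.count_eq_zero_of_notMem, Multiset.count_eq_zero_of_notMem]
  · intro hc
    have := ht a hc
    omega
  · intro hc
    have := hs a hc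
    omega

theorem ms2 {s t : Multiset ℕ} (hs : ∀ x ∈ s, 0 < x) (ht : ∀ x ∈ t, 0 < x)
    (h1 : s.card = t.card) (h2 : s.sum = t.sum)
    (h3 : s.card ≤ 1 ∨ s.sum ≤ s.card + 1 ∨ ((∀ x ∈ s, x ≤ 2) ∧ ∀ x ∈ t, x ≤ 2)) : s = t := by
  rcases h3 with h3 | h3 | h3
  · rcases Nat.eq_zero_or_pos s.card with h0 | h0
    · have h0' : t.card = 0 := by omega
      rw [Multiset.card_eq_zero] at h0 h0'
      rw [h0, h0']
    · have hc : s.card = 1 := by omega
      have hc' : t.card = 1 := by omega
      obtain ⟨a, rfl⟩ := Multiset.card_eq_one.1 hc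
      obtain ⟨b, rfl⟩ := Multiset.card_eq_one.1 hc'
      simp only [Multiset.sum_singleton] at h2
      rw [h2]
  · exact ms12 (fun x hx => ⟨hs x hx, le_two s hs h3 x hx⟩)
      (fun x hx => ⟨ht x hx, le_two t ht (by omega) x hx⟩) h1 h2
  · exact ms12 (fun x hx => ⟨hs x hx, h3.1 x hx⟩) (fun x hx => ⟨ht x hx, h3.2 x hx⟩) h1 h2

/-- A finite abelian group is a product of nontrivial cyclic groups of prime power orders. -/
theorem decomp (X : Type*) [AddCommGroup X] [Finite X] :
    ∃ (ι : Type) (_ : Fintype ι) (p e : ι → ℕ), (∀ i, (p i).Prime) ∧ (∀ i, 0 < e i) ∧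
      Nonempty (X ≃+ ∀ i, ZMod (p i ^ e i)) := by
  classical
  obtain ⟨ι, hι, p, hp, e, ⟨f⟩⟩ := AddCommGroup.equiv_directSum_zmod_of_finite X
  refine ⟨{i : ι // 0 < e i}, inferInstance, fun i => p i.1, fun i => e i.1,
    fun i => hp i.1, fun i => i.2, ⟨?_⟩⟩
  refine f.trans ((DirectSum.addEquivProd (fun i : ι => ZMod (p i ^ e i))).trans ?_)
  exact
    { toFun := fun g i => g i.1
      invFun := fun g i => if h : 0 < e i then g ⟨i, h⟩ else 0
      left_inv := by
        intro g
        funext i
        by_cases h : 0 < e i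
        · simp only [dif_pos h]
        · have h0 : e i = 0 := by omega
          have : Subsingleton (ZMod (p i ^ e i)) := by
            rw [h0, pow_zero]; exact (inferInstance : Subsingleton (ZMod 1))
          exact Subsingleton.elim _ _
      right_inv := by
        intro g
        funext i
        simp only [dif_pos i.2]
      map_add' := by
        intro g g'
        rfl }

/-- The index of `pX` is the number of elements killed by `p`. -/
theorem index_eq {X : Type*} [AddCommGroup X] [Finite X] (p : ℕ) :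
    (nsmulAddMonoidHom (α := X) p).range.index = Nat.card {x : X // p • x = 0} := by
  rw [AddSubgroup.index_range]
  rfl

theorem card_kill_zmod (p n : ℕ) [NeZero n] :
    Nat.card {x : ZMod n // p • x = 0} = n.gcd p := by
  have h := IsAddCyclic.card_nsmulAddMonoidHom_ker (G := ZMod n) p
  rw [Nat.card_zmod] at h
  rw [← h]
  rfl

/-- The exponents of the summands belonging to the prime `q`. -/
def S {ι : Type} [Fintype ι] (p e : ι → ℕ) (q : ℕ) : Multiset ℕ :=
  (Finset.univ.filter (fun i => p i = q)).val.map e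

theorem index_S {X : Type*} [AddCommGroup X] [Finite X] {ι : Type} [Fintype ι] {p e : ι → ℕ}
    (hp : ∀ i, (p i).Prime) (he : ∀ i, 0 < e i) (f : X ≃+ ∀ i, ZMod (p i ^ e i))
    {q : ℕ} (hq : q.Prime) :
    (nsmulAddMonoidHom (α := X) q).range.index = q ^ (S p e q).card := by
  classical
  rw [index_eq]
  have h1 : Nat.card {x : X // q • x = 0} =
      Nat.card {x : (∀ i, ZMod (p i ^ e i)) // ∀ i, q • x i = 0} := by
    refine Nat.card_congr (f.toEquiv.subtypeEquiv (fun x => ?_))
    constructor
    · intro hx i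
      have h2 : q • f x = 0 := by rw [← map_nsmul, hx, map_zero]
      exact congrFun h2 i
    · intro hx
      have h2 : q • f x = 0 := by
        funext i
        exact hx i
      rw [← map_nsmul] at h2
      exact (map_eq_zero_iff f f.injective).1 h2
  rw [h1, Nat.card_congr (Equiv.subtypePiEquivPi
    (β := fun i => ZMod (p i ^ e i)) (p := fun i x => q • x = 0)), Nat.card_pi]
  have h2 : ∀ i, Nat.card {b : ZMod (p i ^ e i) // q • b = 0} = if p i = q then q else 1 := by
    intro i
    have hne : NeZero (p i ^ e i) := ⟨pow_ne_zero _ (hp i).ne_zero⟩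
    rw [card_kill_zmod]
    by_cases h : p i = q
    · rw [if_pos h, h]
      exact Nat.gcd_eq_right (dvd_pow_self q (he i).ne')
    · rw [if_neg h]
      exact Nat.Coprime.pow_left _ ((Nat.coprime_primes (hp i) hq).2 h)
  rw [Finset.prod_congr rfl (fun i _ => h2 i), Finset.prod_ite, Finset.prod_const,
    Finset.prod_const_one, mul_one]
  simp only [S, Multiset.card_map, Finset.card_val]

theorem card_S {X : Type*} [AddCommGroup X] [Finite X] {ι : Type} [Fintype ι] {p e : ι → ℕ}
    (hp : ∀ i, (p i).Prime) (f : X ≃+ ∀ i, ZMod (p i ^ e i)) (q : ℕ) :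
    (Nat.card X).factorization q = (S p e q).sum := by
  classical
  rw [Nat.card_congr f.toEquiv, Nat.card_pi]
  have h2 : ∀ i ∈ Finset.univ, Nat.card (ZMod (p i ^ e i)) = p i ^ e i := fun i _ =>
    Nat.card_zmod _
  rw [Finset.prod_congr rfl h2, Nat.factorization_prod (fun i _ => pow_ne_zero _ (hp i).ne_zero),
    Finsupp.finsetSum_apply]
  have h3 : ∀ i ∈ Finset.univ, (p i ^ e i).factorization q = if p i = q then e i else 0 := by
    intro i _
    rw [Nat.factorization_pow, (hp i).factorization]
    simp [Finsupp.single_apply]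
  rw [Finset.sum_congr rfl h3, ← Finset.sum_filter]
  rfl

theorem kill_S {X : Type*} [AddCommGroup X] [Finite X] {ι : Type} [Fintype ι] {p e : ι → ℕ}
    (hp : ∀ i, (p i).Prime) (f : X ≃+ ∀ i, ZMod (p i ^ e i)) {q : ℕ}
    (h : ∀ x : X, q ^ 3 • x = 0 → q ^ 2 • x = 0) : ∀ k ∈ S p e q, k ≤ 2 := by
  classical
  intro k hk
  simp only [S, Multiset.mem_map, Finset.mem_val, Finset.mem_filter, Finset.mem_univ,
    true_and] at hk
  obtain ⟨i, hi, rfl⟩ := hk
  by_contra hlt
  push Not at hlt
  have hq : q.Prime := hi ▸ hp i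
  have h1 := h (f.symm (Pi.single i (((q ^ (e i - 3) : ℕ)) : ZMod (p i ^ e i)))) (by
    rw [← map_nsmul, ← Pi.single_smul, nsmul_eq_mul, ← Nat.cast_mul, ← pow_add,
      show 3 + (e i - 3) = e i by omega]
    rw [show ((q ^ e i : ℕ) : ZMod (p i ^ e i)) = 0 by
      rw [hi]; exact ZMod.natCast_self _]
    rw [Pi.single_zero, map_zero])
  rw [← map_nsmul, map_eq_zero_iff _ f.symm.injective, ← Pi.single_smul, nsmul_eq_mul,
    ← Nat.cast_mul, ← pow_add] at h1
  have h2 : (((q ^ (2 + (e i - 3)) : ℕ)) : ZMod (p i ^ e i)) = 0 := by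
    have := congrFun h1 i
    rwa [Pi.single_eq_same] at this
  rw [ZMod.natCast_eq_zero_iff, hi] at h2
  have h3 := (Nat.pow_dvd_pow_iff_le_right hq.one_lt).1 h2
  omega

theorem iso_of_perm {ι κ : Type} {n : ι → ℕ} {m : κ → ℕ} (σ : ι ≃ κ)
    (h : ∀ i, m (σ i) = n i) :
    Nonempty ((∀ i, ZMod (n i)) ≃+ ∀ j, ZMod (m j)) := by
  have hm : m = fun j => n (σ.symm j) := by
    funext j
    rw [← h, σ.apply_symm_apply]
  subst hm
  exact ⟨(RingEquiv.piCongrLeft' (fun i => ZMod (n i)) σ).toAddEquiv⟩

theorem iso_of_S {ι κ : Type} [Fintype ι] [Fintype κ] {p e : ι → ℕ} {p' e' : κ → ℕ}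
    (hp : ∀ i, (p i).Prime) (hp' : ∀ j, (p' j).Prime)
    (h : ∀ q : ℕ, q.Prime → S p e q = S p' e' q) :
    Nonempty ((∀ i, ZMod (p i ^ e i)) ≃+ ∀ j, ZMod (p' j ^ e' j)) := by
  classical
  have hc : ∀ c : ℕ × ℕ, Nonempty ({i : ι // (p i, e i) = c} ≃ {j : κ // (p' j, e' j) = c}) := by
    rintro ⟨q, k⟩
    rw [← Fintype.card_eq]
    by_cases hq : q.Prime
    · have h1 := congrArg (Multiset.count k) (h q hq)
      have key : ∀ {τ : Type} [Fintype τ] (a b : τ → ℕ),
          Fintype.card {i : τ // (a i, b i) = (q, k)} = Multiset.count k (S a b q) := by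
        intro τ _ a b
        rw [S, Multiset.count_map, Fintype.card_subtype, ← Finset.filter_val, Finset.card_val,
          Finset.filter_filter]
        congr 1
        ext i
        simp only [Finset.mem_filter, Finset.mem_univ, true_and, Prod.mk.injEq]
        constructor
        · rintro ⟨h1, h2⟩; exact ⟨h1, h2.symm⟩
        · rintro ⟨h1, h2⟩; exact ⟨h1, h2.symm⟩
      rw [key, key, h1]
    · have e1 : IsEmpty {i : ι // (p i, e i) = (q, k)} := ⟨fun i => hq (by
        have := i.2
        rw [Prod.mk.injEq] at this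
        rw [← this.1]
        exact hp i.1)⟩
      have e2 : IsEmpty {j : κ // (p' j, e' j) = (q, k)} := ⟨fun i => hq (by
        have := i.2
        rw [Prod.mk.injEq] at this
        rw [← this.1]
        exact hp' i.1)⟩
      rw [Fintype.card_eq_zero, Fintype.card_eq_zero]
  let σ : ι ≃ κ := Equiv.ofFiberEquiv (f := fun i => (p i, e i)) (g := fun j => (p' j, e' j))
    (fun c => Classical.choice (hc c))
  refine iso_of_perm σ (fun i => ?_)
  have h1 : (p' (σ i), e' (σ i)) = (p i, e i) :=
    Equiv.ofFiberEquiv_map (f := fun i => (p i, e i)) (g := fun j => (p' j, e' j)) _ i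
  rw [Prod.mk.injEq] at h1
  rw [h1.1, h1.2]

end Pool.Agent.Lib.RkQ.Iso2

namespace Pool.Agent.Lib.RkQ

open Iso2 in
/-- Two finite abelian groups of the same order and with the same ranks are isomorphic, if for
every prime `p` the rank `r` or the `p`-part of the order or the exponents are small. -/
theorem iso_gen {X Y : Type*} [AddCommGroup X] [AddCommGroup Y] [Finite X] [Finite Y]
    (h : Nat.card X = Nat.card Y)
    (h4 : ∀ p r : ℕ, p.Prime → (nsmulAddMonoidHom (α := X) p).range.index = p ^ r →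
      r ≤ 1 ∨ (Nat.card X).factorization p ≤ r + 1 ∨
        ((∀ x : X, p ^ 3 • x = 0 → p ^ 2 • x = 0) ∧ (∀ y : Y, p ^ 3 • y = 0 → p ^ 2 • y = 0)))
    (hr : ∀ p : ℕ, p.Prime → (nsmulAddMonoidHom (α := X) p).range.index =
      (nsmulAddMonoidHom (α := Y) p).range.index) : Nonempty (X ≃+ Y) := by
  classical
  obtain ⟨ι, _, p, e, hp, he, ⟨f⟩⟩ := decomp X
  obtain ⟨κ, _, p', e', hp', he', ⟨g⟩⟩ := decomp Y
  have hS : ∀ q : ℕ, q.Prime → S p e q = S p' e' q := by
    intro q hq
    have i1 := index_S hp he f hq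
    have i2 := index_S hp' he' g hq
    have c1 := card_S hp f q
    have c2 := card_S hp' g q
    refine ms2 ?_ ?_ ?_ ?_ ?_
    · intro x hx
      simp only [S, Multiset.mem_map, Finset.mem_val, Finset.mem_filter, Finset.mem_univ,
        true_and] at hx
      obtain ⟨i, _, rfl⟩ := hx
      exact he i
    · intro x hx
      simp only [S, Multiset.mem_map, Finset.mem_val, Finset.mem_filter, Finset.mem_univ,
        true_and] at hx
      obtain ⟨i, _, rfl⟩ := hx
      exact he' i
    · have h1 := hr q hq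
      rw [i1, i2] at h1
      exact Nat.pow_right_injective hq.two_le h1
    · rw [← c1, ← c2, h]
    · rcases h4 q _ hq i1 with h1 | h1 | h1
      · exact Or.inl h1
      · rw [c1] at h1
        exact Or.inr (Or.inl h1)
      · exact Or.inr (Or.inr ⟨kill_S hp f h1.1, kill_S hp' g h1.2⟩)
  obtain ⟨w⟩ := iso_of_S hp hp' hS
  exact ⟨(f.trans w).trans g.symm⟩

end Pool.Agent.Lib.RkQ
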