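import Pool.Agent.Lib.RkQ.Dim

/-!
# Construction of a regulating subgroup with prescribed images modulo several primes
-/

namespace Pool.Agent.Lib.RkQ

open Pool.Agent.Lib.C8da183
open scoped Classical

set_option linter.unusedSectionVars false

variable {V : Type*} [AddCommGroup V] [Module ℚ V]
variable {G C : AddSubgroup V} {J : Type*} [Fintype J] [DecidableEq J] {b : J → V}
  {f : J → V →ₗ[ℚ] ℚ} {p : ℕ}

/-- `pG` together with the elements `g j • b j + w j`, `j` of the type of `x`. -/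
noncomputable def Lx (G C : AddSubgroup V) (b : J → V) (p : ℕ) (g : J → ℚ) (w : J → V) (x : V) :
    AddSubgroup V where
  carrier := {v | ∃ z : J → ℤ, (∀ j, z j ≠ 0 → (TypeLE G x G (b j) ∧ TypeLE G (b j) G x) ∧
    NDiv C (b j) p) ∧ v - ∑ j, z j • (g j • b j + w j) ∈ pm p G}
  add_mem' := by
    rintro v v' ⟨z, h1, h2⟩ ⟨z', h1', h2'⟩
    refine ⟨z + z', fun j hj => ?_, ?_⟩
    · by_cases h : z j = 0
      · refine h1' j fun h' => hj ?_
        rw [Pi.add_apply, h, h', add_zero]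
      · exact h1 j h
    · have : v + v' - ∑ j, (z + z') j • (g j • b j + w j) =
          (v - ∑ j, z j • (g j • b j + w j)) + (v' - ∑ j, z' j • (g j • b j + w j)) := by
        simp only [Pi.add_apply, add_smul, Finset.sum_add_distrib]
        abel
      rw [this]
      exact AddSubgroup.add_mem _ h2 h2'
  zero_mem' := ⟨0, fun j hj => absurd rfl hj, by simp [AddSubgroup.zero_mem]⟩
  neg_mem' := by
    rintro v ⟨z, h1, h2⟩
    refine ⟨-z, fun j hj => h1 j fun h => hj (by rw [Pi.neg_apply, h, neg_zero]), ?_⟩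
    have : -v - ∑ j, (-z) j • (g j • b j + w j) = -(v - ∑ j, z j • (g j • b j + w j)) := by
      simp only [Pi.neg_apply, neg_smul, Finset.sum_neg_distrib]
      abel
    rw [this]
    exact AddSubgroup.neg_mem _ h2

theorem pm_le_Lx {g : J → ℚ} {w : J → V} {x : V} : pm p G ≤ Lx G C b p g w x := by
  intro v hv
  exact ⟨0, fun j hj => absurd rfl hj, by simpa using hv⟩

theorem mem_Lx {g : J → ℚ} {w : J → V} {x : V} {j : J} (h1 : TypeLE G x G (b j))
    (h2 : TypeLE G (b j) G x) (hN : NDiv C (b j) p) : g j • b j + w j ∈ Lx G C b p g w x := by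
  refine ⟨Pi.single j 1, fun i hi => ?_, ?_⟩
  · by_cases hij : i = j
    · rw [hij]; exact ⟨⟨h1, h2⟩, hN⟩
    · rw [Pi.single_eq_of_ne hij] at hi
      exact absurd rfl hi
  · rw [Finset.sum_eq_single j]
    · simp [AddSubgroup.zero_mem]
    · intro i _ hij
      rw [Pi.single_eq_of_ne hij, zero_smul]
    · intro h; exact absurd (Finset.mem_univ j) h

theorem Lx_congr {g : J → ℚ} {w : J → V} {x y : V} (h1 : TypeLE G x G y)
    (h2 : TypeLE G y G x) : Lx G C b p g w x = Lx G C b p g w y := by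
  ext v
  constructor
  · rintro ⟨z, h3, h4⟩
    exact ⟨z, fun j hj => ⟨⟨h2.trans (h3 j hj).1.1, (h3 j hj).1.2.trans h1⟩, (h3 j hj).2⟩, h4⟩
  · rintro ⟨z, h3, h4⟩
    exact ⟨z, fun j hj => ⟨⟨h1.trans (h3 j hj).1.1, (h3 j hj).1.2.trans h2⟩, (h3 j hj).2⟩, h4⟩

theorem up_le_Lx (R : Ref G C b f) (hC : IsRegulating G C) (hp : p.Prime) {g : J → ℚ}
    (hg : Gen C b p g) {w : J → V} (hw : ∀ j, w j ∈ sharp G (b j)) {x : V} (hx : x ∈ G)
    (hx0 : x ≠ 0) : up G x ≤ Lx G C b p g w x ⊔ sharp G x := by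
  intro y hy
  set S : AddSubgroup V := Lx G C b p g w x ⊔ sharp G x with hS
  obtain ⟨c, hc, u, hu, e⟩ := AddSubgroup.mem_sup.mp (hC.up_le_sup hx hx0 hy)
  have hcup : c ∈ up G x := by
    have : c = y - u := by rw [← e]; abel
    rw [this]
    exact AddSubgroup.sub_mem _ hy (sharp_le_up hu)
  have hcG := R.le hc
  rw [← e]
  refine S.add_mem ?_ ((le_sup_right : sharp G x ≤ S) hu)
  rw [R.expand c hcG]
  refine S.sum_mem fun j _ => ?_
  by_cases hj : f j c = 0
  · rw [hj, zero_smul]; exact S.zero_mem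
  have hxj : TypeLE G x G (b j) := (R.mem_up_iff hcG).mp hcup j hj
  have hcj := R.coord c hc j
  by_cases hjx : TypeLE G (b j) G x
  · obtain ⟨z, q', hq', e', hz⟩ := hg.cyc R hp j hcj
    rw [e', add_smul]
    refine S.add_mem ?_ ((le_sup_left : Lx G C b p g w x ≤ S) (pm_le_Lx ⟨q' • b j, R.le hq', ?_⟩))
    · by_cases hN : NDiv C (b j) p
      · rw [mul_smul, Int.cast_smul_eq_zsmul]
        refine S.zsmul_mem ?_ z
        have h3 : g j • b j = (g j • b j + w j) - w j := by abel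
        rw [h3]
        refine S.sub_mem ((le_sup_left : Lx G C b p g w x ≤ S) (mem_Lx hxj hjx hN))
          ((le_sup_right : sharp G x ≤ S) ?_)
        rw [sharp_eq_of_equiv hxj hjx]
        exact hw j
      · rw [hz hN]; simp [S.zero_mem]
    · change p • (q' • b j) = _
      rw [nsmul_eq, smul_smul]
  · refine (le_sup_right : sharp G x ≤ S) ?_
    rw [R.mem_sharp_iff (R.le hcj)]
    intro i hi
    rw [map_smul, R.dual] at hi
    by_cases hij : i = j
    · rw [hij]; exact ⟨hxj, hjx⟩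
    · rw [if_neg hij, smul_zero] at hi
      exact absurd rfl hi

theorem Lx_inf_sharp (R : Ref G C b f) (hC : IsRegulating G C) (hp : p.Prime) {g : J → ℚ}
    (hg : Gen C b p g) {w : J → V} (hw : ∀ j, w j ∈ sharp G (b j)) {x : V} (hx : x ∈ G)
    (hx0 : x ≠ 0) : Lx G C b p g w x ⊓ sharp G x ≤ pm p G := by
  rintro s ⟨⟨z, hz, g0, hg0, e⟩, hs⟩
  have e' : p • g0 = s - ∑ j, z j • (g j • b j + w j) := e
  have hvup : ∀ j, z j ≠ 0 → g j • b j + w j ∈ up G x := by
    intro j hj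
    have h1 := (hz j hj).1
    refine AddSubgroup.add_mem _ ⟨R.le (hg.mem j), h1.1.smul_right _⟩ ?_
    rw [up_eq_of_equiv h1.1 h1.2]
    exact sharp_le_up (hw j)
  have hg0up : g0 ∈ up G x := by
    refine mem_up_of_smul hg0 (c := (p : ℚ)) (by exact_mod_cast hp.ne_zero) ?_
    rw [← nsmul_eq, e']
    refine AddSubgroup.sub_mem _ (sharp_le_up hs) (AddSubgroup.sum_mem _ fun j _ => ?_)
    by_cases hj : z j = 0
    · rw [hj, zero_smul]; exact AddSubgroup.zero_mem _
    · exact AddSubgroup.zsmul_mem _ (hvup j hj) _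
  obtain ⟨c0, hc0, t0, ht0, e0⟩ := AddSubgroup.mem_sup.mp (hC.up_le_sup hx hx0 hg0up)
  have hfs : ∀ t ∈ sharp G x, ∀ i, TypeLE G (b i) G x → f i t = 0 := by
    intro t ht i hi
    by_contra h
    exact ((R.mem_sharp_iff (sharp_le ht)).mp ht i h).2 hi
  have hdvd : ∀ i, (p : ℤ) ∣ z i := by
    intro i
    by_cases hi : z i = 0
    · rw [hi]; exact dvd_zero _
    obtain ⟨⟨h1, h2⟩, hN⟩ := hz i hi
    have h3 := congrArg (f i) e'
    rw [map_nsmul, map_sub, hfs s hs i h2, map_sum, Finset.sum_eq_single i] at h3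
    · rw [map_zsmul, map_add, map_smul, R.dual, if_pos rfl,
        hfs (w i) (by rw [sharp_eq_of_equiv h1 h2]; exact hw i) i h2, ← e0, map_add,
        hfs t0 ht0 i h2, add_zero, add_zero, smul_eq_mul, mul_one, zero_sub, nsmul_eq_mul,
        zsmul_eq_mul] at h3
      have h4 : (p : ℤ) ∣ -z i := by
        refine hg.dvd hp hN (R.coord c0 hc0 i) ?_
        push_cast
        linarith
      exact (dvd_neg).mp h4
    · intro j _ hji
      by_cases hj : z j = 0
      · rw [hj, zero_smul, map_zero]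
      obtain ⟨⟨h1', h2'⟩, _⟩ := hz j hj
      rw [map_zsmul, map_add, map_smul, R.dual, if_neg (Ne.symm hji),
        hfs (w j) (by rw [sharp_eq_of_equiv h1' h2']; exact hw j) i h2]
      simp
    · intro h; exact absurd (Finset.mem_univ i) h
  choose z' hz' using hdvd
  have h5 : s = p • g0 + ∑ j, z j • (g j • b j + w j) := by rw [e']; abel
  rw [h5]
  refine AddSubgroup.add_mem _ ⟨g0, hg0, rfl⟩ (AddSubgroup.sum_mem _ fun j _ => ?_)
  rw [hz' j, mul_smul]
  refine ⟨z' j • (g j • b j + w j), G.zsmul_mem (G.add_mem (R.le (hg.mem j))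
    (sharp_le (hw j))) _, ?_⟩
  change p • (z' j • (g j • b j + w j)) = (p : ℤ) • (z' j • (g j • b j + w j))
  rw [natCast_zsmul]

theorem crt (x : V) (L : ℕ → AddSubgroup V) (hL : ∀ p, pm p G ≤ L p) (P : Finset ℕ)
    (hP : ∀ p ∈ P, p.Prime) (h : ∀ p ∈ P, up G x ≤ L p ⊔ sharp G x) {y : V} (hy : y ∈ up G x) :
    ∃ s ∈ sharp G x, ∀ p ∈ P, y - s ∈ L p := by
  induction P using Finset.induction_on with
  | empty => exact ⟨0, AddSubgroup.zero_mem _, fun p hp => absurd hp (Finset.notMem_empty p)⟩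
  | insert q P' hq ih =>
    obtain ⟨s, hs, h1⟩ := ih (fun p hp => hP p (Finset.mem_insert_of_mem hp))
      (fun p hp => h p (Finset.mem_insert_of_mem hp))
    obtain ⟨l, hl, t, ht, e⟩ := AddSubgroup.mem_sup.mp (h q (Finset.mem_insert_self q P') hy)
    have hqp := hP q (Finset.mem_insert_self q P')
    have hcop : IsCoprime (q : ℤ) ((∏ p ∈ P', p : ℕ) : ℤ) := by
      rw [Nat.isCoprime_iff_coprime]
      refine Nat.Coprime.prod_right fun p hp => ?_
      rw [Nat.coprime_primes hqp (hP p (Finset.mem_insert_of_mem hp))]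
      rintro rfl
      exact hq hp
    obtain ⟨α, β, hab⟩ := hcop
    set N : ℕ := ∏ p ∈ P', p with hN
    have hsG := sharp_le hs
    have htG := sharp_le ht
    refine ⟨(α * q) • s + (β * N) • t, AddSubgroup.add_mem _ (AddSubgroup.zsmul_mem _ hs _)
      (AddSubgroup.zsmul_mem _ ht _), fun p hp => ?_⟩
    rcases Finset.mem_insert.mp hp with rfl | hp'
    · have h2 : y - ((α * p) • s + (β * N) • t) = l + (p : ℤ) • (α • (t - s)) := by
        have h3 : (β * N) • t = t - (α * p) • t := by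
          rw [eq_sub_iff_add_eq, ← add_smul, add_comm, hab, one_smul]
        rw [h3, ← e, smul_smul, mul_comm (p : ℤ) α, smul_sub]
        abel
      rw [h2]
      refine AddSubgroup.add_mem _ hl (hL p ⟨α • (t - s), G.zsmul_mem (G.sub_mem htG hsG) _, ?_⟩)
      change p • (α • (t - s)) = _
      rw [natCast_zsmul]
    · obtain ⟨M, hM⟩ : p ∣ N := Finset.dvd_prod_of_mem _ hp'
      have h2 : y - ((α * q) • s + (β * N) • t) = (y - s) + (p : ℤ) • ((M * β) • (s - t)) := by
        have h3 : (α * q) • s = s - (β * N) • s := by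
          rw [eq_sub_iff_add_eq, ← add_smul, hab, one_smul]
        have h4 : (p : ℤ) • ((M * β) • (s - t)) = (β * N) • s - (β * N) • t := by
          rw [smul_smul, ← smul_sub]
          congr 1
          rw [hM]; push_cast; ring
        rw [h3, h4]
        abel
      rw [h2]
      refine AddSubgroup.add_mem _ (h1 p hp')
        (hL p ⟨((M : ℤ) * β) • (s - t), G.zsmul_mem (G.sub_mem hsG htG) _, ?_⟩)
      change p • (((M : ℤ) * β) • (s - t)) = _
      rw [natCast_zsmul]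

theorem construct (R : Ref G C b f) (hC : IsRegulating G C) (P : Finset ℕ)
    (hP : ∀ p ∈ P, p.Prime) (g : ℕ → J → ℚ) (hg : ∀ p, Gen C b p (g p)) (w : ℕ → J → V)
    (hw : ∀ p j, w p j ∈ sharp G (b j)) :
    ∃ D' : V → AddSubgroup V, Fam G D' ∧ ∀ p ∈ P, ∀ j ∈ Jp C b p, ∃ d ∈ D' (b j),
      (g p j • b j + w p j) - d ∈ pm p G ∧ (g p j • b j + w p j) - d ∈ sharp G (b j) := by
  set K : V → AddSubgroup V := fun x => G ⊓ ⨅ p : P, Lx G C b p (g p) (w p) x with hK
  have hKG : ∀ x, K x ≤ G := fun x => inf_le_left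
  have hK0 : ∀ x, (K x).relIndex G ≠ 0 := by
    intro x
    have h1 : (⨅ p : P, Lx G C b p (g p) (w p) x).relIndex G ≠ 0 := by
      refine AddSubgroup.relIndex_iInf_ne_zero fun p => ?_
      intro h
      have h2 := AddSubgroup.relIndex_eq_zero_of_le_left
        (pm_le_Lx (G := G) (C := C) (b := b) (p := p) (g := g p) (w := w p) (x := x)) h
      rw [relIndex_pm_G R (hP p p.2)] at h2
      exact pow_ne_zero _ (hP p p.2).ne_zero h2
    rw [← AddSubgroup.inf_relIndex_right, inf_comm] at h1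
    exact h1
  have hKup : ∀ x ∈ G, x ≠ 0 → up G x ≤ K x ⊔ sharp G x := by
    intro x hx hx0 y hy
    obtain ⟨s, hs, h1⟩ := crt x (fun p => Lx G C b p (g p) (w p) x)
      (fun p => pm_le_Lx) P hP (fun p hp => up_le_Lx R hC (hP p hp) (hg p) (hw p) hx hx0) hy
    rw [AddSubgroup.mem_sup]
    have h2 : y - s ∈ ⨅ p : P, Lx G C b p (g p) (w p) x := by
      rw [AddSubgroup.mem_iInf]
      exact fun p => h1 p p.2
    exact ⟨y - s, ⟨G.sub_mem (up_le hy) (sharp_le hs), h2⟩, s, hs, by abel⟩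
  have hKcongr : ∀ x y, TypeLE G x G y → TypeLE G y G x → K x = K y := by
    intro x y h1 h2
    simp only [hK]
    congr 1
    exact iInf_congr fun p => Lx_congr h1 h2
  obtain ⟨D, hD, hCD⟩ := isRegulating_iff.mp hC
  set Q : V → AddSubgroup V → Prop := fun x H =>
    IsHomogCD H G x ∧ H ⊔ sharp G x = up G x ∧ H ⊓ sharp G x = ⊥ ∧ H ≤ K x with hQ
  have hex : ∀ x ∈ G, x ≠ 0 → ∃ H, Q x H := by
    intro x hx hx0
    obtain ⟨h1, h2, h3⟩ := hD.prop x hx hx0
    exact lift_homog h1 h2 h3 (hK0 x) (hKup x hx hx0)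
  have hQeq : ∀ x ∈ G, ∀ y ∈ G, TypeLE G x G y → TypeLE G y G x → Q x = Q y := by
    intro x _ y _ h1 h2
    ext H
    simp only [hQ]
    rw [up_eq_of_equiv h1 h2, sharp_eq_of_equiv h1 h2, hKcongr x y h1 h2]
    constructor
    · rintro ⟨a, b⟩; exact ⟨isHomogCD_congr h1 h2 a, b⟩
    · rintro ⟨a, b⟩; exact ⟨isHomogCD_congr h2 h1 a, b⟩
  set D' : V → AddSubgroup V := fun x => Classical.epsilon (Q x) with hD'
  have hspec : ∀ x ∈ G, x ≠ 0 → Q x (D' x) := fun x hx hx0 =>
    Classical.epsilon_spec (hex x hx hx0)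
  have hfam : Fam G D' :=
    ⟨fun x hx hx0 => ⟨(hspec x hx hx0).1, (hspec x hx hx0).2.1, (hspec x hx hx0).2.2.1⟩,
      fun x hx y hy _ _ h1 h2 => by rw [hD']; simp only; rw [hQeq x hx y hy h1 h2]⟩
  refine ⟨D', hfam, ?_⟩
  intro p hp j hj
  have hpp := hP p hp
  have hbG := R.bG j
  have hb0 := R.b_ne_zero j
  have hvL : g p j • b j + w p j ∈ Lx G C b p (g p) (w p) (b j) :=
    mem_Lx (TypeLE.refl _ _) (TypeLE.refl _ _) (mem_Jp.mp hj)
  have hvup : g p j • b j + w p j ∈ up G (b j) :=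
    AddSubgroup.add_mem _ ⟨R.le ((hg p).mem j), (TypeLE.refl G (b j)).smul_right _⟩
      (sharp_le_up (hw p j))
  obtain ⟨_, h2, _, h4⟩ := hspec (b j) hbG hb0
  rw [← h2] at hvup
  obtain ⟨d, hd, s, hs, e⟩ := AddSubgroup.mem_sup.mp hvup
  have hdL : d ∈ Lx G C b p (g p) (w p) (b j) := by
    have h5 : d ∈ ⨅ p : P, Lx G C b p (g p) (w p) (b j) := (h4 hd).2
    rw [AddSubgroup.mem_iInf] at h5
    exact h5 ⟨p, hp⟩
  have hsL : s ∈ Lx G C b p (g p) (w p) (b j) := by
    have : s = (g p j • b j + w p j) - d := by rw [← e]; abel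
    rw [this]
    exact AddSubgroup.sub_mem _ hvL hdL
  have hsp := Lx_inf_sharp R hC hpp (hg p) (hw p) hbG hb0 ⟨hsL, hs⟩
  have e2 : g p j • b j + w p j - d = s := by rw [← e]; abel
  exact ⟨d, hd, by rw [e2]; exact hsp, by rw [e2]; exact hs⟩

end Pool.Agent.Lib.RkQ
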