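import Mathlib

/-!
# A finite abelian group is cyclic iff `|X / pX| ≤ p` for all primes `p`

PROOF of `isAddCyclic_of_index_le`. `isAddCyclic_of_card_nsmul_eq_zero_le` (or its multiplicative
form `isCyclic_of_card_pow_eq_one_le`): it is enough that `{x | n • x = 0}` has at most `n`
elements for all `n > 0`. For `n` prime: the kernel of `p •` has `index of range` elements
(`X / ker ≃ range`, Lagrange twice). For a product `m * n`: `x ↦ m • x` maps `X[m n]` to `X[n]`,
kernel `X[m]`, so `|X[m n]| ≤ |X[m]| * |X[n]|`. Induction `Nat.recOnMul`.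
PROOF of `index_le_of_isAddCyclic`: `X` generated by `g`, every element is `k • g` with `k : ℤ`,
and `k • g ≡ (k % p) • g` modulo `p X`, so the quotient has at most `p` elements.
-/

namespace Pool.Agent.Lib.RkQ

theorem cyc_card_ker {X : Type*} [AddCommGroup X] [Finite X] (n : ℕ) :
    Nat.card (nsmulAddMonoidHom (α := X) n).ker = (nsmulAddMonoidHom (α := X) n).range.index := by
  have h1 := (nsmulAddMonoidHom (α := X) n).ker.card_mul_index
  have h2 := (nsmulAddMonoidHom (α := X) n).range.card_mul_index
  rw [AddSubgroup.index_ker] at h1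
  have hpos : 0 < Nat.card (nsmulAddMonoidHom (α := X) n).range := Nat.card_pos
  rw [← h2, mul_comm] at h1
  exact Nat.eq_of_mul_eq_mul_left hpos h1

theorem cyc_card_ker_mul {X : Type*} [AddCommGroup X] [Finite X] (m n : ℕ) :
    Nat.card (nsmulAddMonoidHom (α := X) (m * n)).ker ≤
      Nat.card (nsmulAddMonoidHom (α := X) m).ker * Nat.card (nsmulAddMonoidHom (α := X) n).ker := by
  set φ : (nsmulAddMonoidHom (α := X) (m * n)).ker →+ X :=
    (nsmulAddMonoidHom (α := X) m).comp (nsmulAddMonoidHom (α := X) (m * n)).ker.subtype with hφ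
  have h1 := φ.ker.card_mul_index
  rw [AddSubgroup.index_ker] at h1
  rw [← h1]
  apply Nat.mul_le_mul
  · apply Nat.card_le_card_of_injective
      (fun x : φ.ker => (⟨x.1.1, by
        have := x.2
        rw [AddMonoidHom.mem_ker] at this ⊢
        exact this⟩ : (nsmulAddMonoidHom (α := X) m).ker))
    intro x y hxy
    apply Subtype.ext
    apply Subtype.ext
    exact congrArg (fun z : (nsmulAddMonoidHom (α := X) m).ker => z.1) hxy
  · have hle : φ.range ≤ (nsmulAddMonoidHom (α := X) n).ker := by
      rintro _ ⟨x, rfl⟩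
      have hx := x.2
      rw [AddMonoidHom.mem_ker] at hx ⊢
      change n • (m • x.1) = 0
      change (m * n) • x.1 = 0 at hx
      rw [← mul_nsmul, ← hx]
    exact Nat.card_le_card_of_injective _ (AddSubgroup.inclusion_injective hle)

theorem cyc_card_filter {X : Type*} [AddCommGroup X] [Fintype X] [DecidableEq X] (n : ℕ) :
    Nat.card (nsmulAddMonoidHom (α := X) n).ker
      = (Finset.univ.filter (fun a : X => n • a = 0)).card := by
  rw [← Nat.card_eq_finsetCard]
  apply Nat.card_congr
  refine Equiv.subtypeEquivRight (fun x => ?_)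
  rw [AddMonoidHom.mem_ker, Finset.mem_filter]
  simp

theorem isAddCyclic_of_index_le {X : Type*} [AddCommGroup X] [Finite X]
    (h : ∀ p : ℕ, p.Prime → (nsmulAddMonoidHom (α := X) p).range.index ≤ p) : IsAddCyclic X := by
  classical
  have := Fintype.ofFinite X
  apply isAddCyclic_of_card_nsmul_eq_zero_le
  intro n hn
  suffices hs : Nat.card (nsmulAddMonoidHom (α := X) n).ker ≤ n by
    rw [cyc_card_filter] at hs
    convert hs
  revert hn
  induction n using Nat.recOnMul with
  | zero => intro hn; exact absurd hn (lt_irrefl 0)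
  | one =>
    intro _
    rw [cyc_card_filter, Finset.card_le_one]
    intro a ha b hb
    simp only [one_nsmul, Finset.mem_filter] at ha hb
    rw [ha.2, hb.2]
  | prime p hp =>
    intro _
    rw [cyc_card_ker]
    exact h p hp
  | mul a b ha hb =>
    intro hn
    have ha0 : 0 < a := Nat.pos_of_mul_pos_right hn
    have hb0 : 0 < b := Nat.pos_of_mul_pos_left hn
    exact (cyc_card_ker_mul a b).trans (Nat.mul_le_mul (ha ha0) (hb hb0))

theorem index_le_of_isAddCyclic {X : Type*} [AddCommGroup X] [Finite X] (hX : IsAddCyclic X)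
    {p : ℕ} (hp : p.Prime) : (nsmulAddMonoidHom (α := X) p).range.index ≤ p := by
  classical
  have := Fintype.ofFinite X
  rw [← cyc_card_ker, cyc_card_filter]
  exact IsAddCyclic.card_nsmul_eq_zero_le hp.pos

end Pool.Agent.Lib.RkQ
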