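import Mathlib

/-!
# Interpolation of ranks
-/

namespace Pool.Agent.Lib.RkQ

theorem interp {K M ι : Type*} [Field K] [AddCommGroup M] [Module K M] [FiniteDimensional K M]
    [Fintype ι] [DecidableEq ι] (x y : ι → M) (m : ℕ)
    (h1 : Module.finrank K (Submodule.span K (Set.range x)) ≤ m)
    (h2 : m ≤ Module.finrank K (Submodule.span K (Set.range y))) :
    ∃ T : Finset ι, Module.finrank K
      (Submodule.span K (Set.range fun i => if i ∈ T then y i else x i)) = m := by
  have key : ∀ T : Finset ι, m ≤ Module.finrank K
      (Submodule.span K (Set.range fun i => if i ∈ T then y i else x i)) →
      ∃ T : Finset ι, Module.finrank K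
        (Submodule.span K (Set.range fun i => if i ∈ T then y i else x i)) = m := by
    intro T
    induction T using Finset.induction_on with
    | empty =>
      intro h
      refine ⟨∅, le_antisymm ?_ h⟩
      have e : (fun i => if i ∈ (∅ : Finset ι) then y i else x i) = x := by
        ext i; simp
      rw [e]
      exact h1
    | insert j T hj ih =>
      intro h
      by_cases h3 : m ≤ Module.finrank K
          (Submodule.span K (Set.range fun i => if i ∈ T then y i else x i))
      · exact ih h3
      refine ⟨insert j T, le_antisymm ?_ h⟩
      have h4 : Submodule.span K (Set.range fun i => if i ∈ insert j T then y i else x i) ≤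
          Submodule.span K (Set.range fun i => if i ∈ T then y i else x i) ⊔
            Submodule.span K {y j} := by
        rw [Submodule.span_le]
        rintro _ ⟨i, rfl⟩
        by_cases hij : i = j
        · subst hij
          refine Submodule.mem_sup_right ?_
          simp only [Finset.mem_insert_self, if_true]
          exact Submodule.mem_span_singleton_self _
        · refine Submodule.mem_sup_left (Submodule.subset_span ⟨i, ?_⟩)
          simp [Finset.mem_insert, hij]
      have h5 := (Submodule.finrank_mono h4).trans
        (Submodule.finrank_add_le_finrank_add_finrank _ _)
      have h6 : Module.finrank K (Submodule.span K {y j}) ≤ 1 := by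
        have := finrank_span_le_card (R := K) ({y j} : Set M)
        simpa using this
      omega
  have e : (fun i => if i ∈ (Finset.univ : Finset ι) then y i else x i) = y := by
    ext i; simp
  exact key Finset.univ (by rw [e]; exact h2)

end Pool.Agent.Lib.RkQ
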