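import Mathlib

/-!
# Rado's theorem, deficiency form, for finite sets in a vector space
-/

namespace Pool.Agent.Lib.RkQ

open Module Submodule

section

variable {K M ι : Type*} [Field K] [AddCommGroup M] [Module K M] [FiniteDimensional K M]
  [Fintype ι] [DecidableEq ι] [DecidableEq M]

/-- the union of the sets with index in `s` -/
def U (A : ι → Finset M) (s : Finset ι) : Set M := ⋃ i ∈ s, (A i : Set M)

theorem mem_U {A : ι → Finset M} {s : Finset ι} {y : M} : y ∈ U A s ↔ ∃ i ∈ s, y ∈ A i := by
  simp [U]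

theorem fail {A : ι → Finset M} {d : ℕ}
    (h : ∀ s : Finset ι, s.card ≤ d + finrank K (span K (U A s))) {i₁ : ι} {x : M}
    (hx : ¬ ∀ s : Finset ι, s.card ≤ d +
      finrank K (span K (U (Function.update A i₁ ((A i₁).erase x)) s))) :
    ∃ J : Finset ι, i₁ ∉ J ∧ d + finrank K
      (span K (U A J ∪ (((A i₁).erase x : Finset M) : Set M))) ≤ J.card := by
  push Not at hx
  obtain ⟨s, hs⟩ := hx
  by_cases hi : i₁ ∈ s
  · refine ⟨s.erase i₁, Finset.notMem_erase _ _, ?_⟩
    have h1 : (s.erase i₁).card + 1 = s.card := Finset.card_erase_add_one hi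
    have h2 : U A (s.erase i₁) ∪ (((A i₁).erase x : Finset M) : Set M) ⊆
        U (Function.update A i₁ ((A i₁).erase x)) s := by
      rintro y (hy | hy)
      · obtain ⟨i, his, hyi⟩ := mem_U.mp hy
        refine mem_U.mpr ⟨i, Finset.mem_of_mem_erase his, ?_⟩
        rw [Function.update_of_ne (Finset.ne_of_mem_erase his)]
        exact hyi
      · refine mem_U.mpr ⟨i₁, hi, ?_⟩
        rw [Function.update_self]
        exact hy
    have h3 := Submodule.finrank_mono (span_mono (R := K) h2)
    omega
  · exfalso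
    have h1 : U (Function.update A i₁ ((A i₁).erase x)) s = U A s := by
      ext y
      rw [mem_U, mem_U]
      constructor
      · rintro ⟨i, his, hyi⟩
        have : i ≠ i₁ := fun e => hi (e ▸ his)
        rw [Function.update_of_ne this] at hyi
        exact ⟨i, his, hyi⟩
      · rintro ⟨i, his, hyi⟩
        have : i ≠ i₁ := fun e => hi (e ▸ his)
        refine ⟨i, his, ?_⟩
        rw [Function.update_of_ne this]
        exact hyi
    rw [h1] at hs
    have := h s
    omega

theorem step {A : ι → Finset M} {d : ℕ}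
    (h : ∀ s : Finset ι, s.card ≤ d + finrank K (span K (U A s))) {i₁ : ι} {x y : M}
    (hxy : x ≠ y) (hx : x ∈ A i₁) (hy : y ∈ A i₁) :
    ∃ z ∈ A i₁, ((A i₁).erase z).Nonempty ∧ ∀ s : Finset ι, s.card ≤ d +
      finrank K (span K (U (Function.update A i₁ ((A i₁).erase z)) s)) := by
  by_contra hcon
  push Not at hcon
  have hx' : ¬ ∀ s : Finset ι, s.card ≤ d +
      finrank K (span K (U (Function.update A i₁ ((A i₁).erase x)) s)) := by
    intro h'
    obtain ⟨s, hs⟩ := hcon x hx ⟨y, Finset.mem_erase.mpr ⟨hxy.symm, hy⟩⟩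
    exact absurd (h' s) (not_le.mpr hs)
  have hy' : ¬ ∀ s : Finset ι, s.card ≤ d +
      finrank K (span K (U (Function.update A i₁ ((A i₁).erase y)) s)) := by
    intro h'
    obtain ⟨s, hs⟩ := hcon y hy ⟨x, Finset.mem_erase.mpr ⟨hxy, hx⟩⟩
    exact absurd (h' s) (not_le.mpr hs)
  obtain ⟨J, hJ, hJ'⟩ := fail h hx'
  obtain ⟨L, hL, hL'⟩ := fail h hy'
  set P := span K (U A J ∪ (((A i₁).erase x : Finset M) : Set M)) with hP
  set Q := span K (U A L ∪ (((A i₁).erase y : Finset M) : Set M)) with hQ
  have h1 := Submodule.finrank_sup_add_finrank_inf_eq P Q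
  have h2 : span K (U A (insert i₁ (J ∪ L))) ≤ P ⊔ Q := by
    rw [span_le]
    intro v hv
    obtain ⟨i, hi, hvi⟩ := mem_U.mp hv
    rcases Finset.mem_insert.mp hi with rfl | hi
    · by_cases hvx : v = x
      · refine mem_sup_right (subset_span (Or.inr ?_))
        exact Finset.mem_coe.mpr (Finset.mem_erase.mpr ⟨fun e => hxy (hvx.symm.trans e), hvi⟩)
      · refine mem_sup_left (subset_span (Or.inr ?_))
        exact Finset.mem_coe.mpr (Finset.mem_erase.mpr ⟨hvx, hvi⟩)
    · rcases Finset.mem_union.mp hi with hi | hi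
      · exact mem_sup_left (subset_span (Or.inl (mem_U.mpr ⟨i, hi, hvi⟩)))
      · exact mem_sup_right (subset_span (Or.inl (mem_U.mpr ⟨i, hi, hvi⟩)))
  have h3 : span K (U A (J ∩ L)) ≤ P ⊓ Q := by
    rw [span_le]
    intro v hv
    obtain ⟨i, hi, hvi⟩ := mem_U.mp hv
    rw [Finset.mem_inter] at hi
    exact ⟨subset_span (Or.inl (mem_U.mpr ⟨i, hi.1, hvi⟩)),
      subset_span (Or.inl (mem_U.mpr ⟨i, hi.2, hvi⟩))⟩
  have h4 := Submodule.finrank_mono h2
  have h5 := Submodule.finrank_mono h3
  have h6 := h (insert i₁ (J ∪ L))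
  have h7 := h (J ∩ L)
  have h8 : (insert i₁ (J ∪ L)).card = (J ∪ L).card + 1 := by
    refine Finset.card_insert_of_notMem ?_
    rw [Finset.mem_union]
    rintro (h | h)
    · exact hJ h
    · exact hL h
  have h9 := Finset.card_union_add_card_inter J L
  omega

end

theorem rado {K M ι : Type*} [Field K] [AddCommGroup M] [Module K M] [FiniteDimensional K M]
    [Fintype ι] [DecidableEq ι] [DecidableEq M] (A : ι → Finset M) (hne : ∀ i, (A i).Nonempty)
    (d : ℕ)
    (h : ∀ s : Finset ι,
      s.card ≤ d + Module.finrank K (Submodule.span K (⋃ i ∈ s, (A i : Set M)))) :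
    ∃ x : ι → M, (∀ i, x i ∈ A i) ∧
      Fintype.card ι ≤ d + Module.finrank K (Submodule.span K (Set.range x)) := by
  generalize hn : ∑ i, (A i).card = n
  induction n using Nat.strong_induction_on generalizing A with
  | _ n ih =>
    by_cases h1 : ∃ i, ∃ x ∈ A i, ∃ y ∈ A i, x ≠ y
    · obtain ⟨i₁, x, hx, y, hy, hxy⟩ := h1
      obtain ⟨z, hz, hz1, hz2⟩ := step (K := K) h hxy hx hy
      have hlt : ∑ i, (Function.update A i₁ ((A i₁).erase z) i).card < n := by
        rw [← hn]
        refine Finset.sum_lt_sum (fun i _ => ?_) ⟨i₁, Finset.mem_univ _, ?_⟩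
        · by_cases hi : i = i₁
          · subst hi
            rw [Function.update_self]
            exact Finset.card_erase_le
          · rw [Function.update_of_ne hi]
        · rw [Function.update_self]
          exact Finset.card_erase_lt_of_mem hz
      obtain ⟨w, hw, hw2⟩ := ih _ hlt (Function.update A i₁ ((A i₁).erase z)) (fun i => by
        by_cases hi : i = i₁
        · subst hi
          rw [Function.update_self]
          exact hz1
        · rw [Function.update_of_ne hi]
          exact hne i) hz2 rfl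
      refine ⟨w, fun i => ?_, hw2⟩
      have := hw i
      by_cases hi : i = i₁
      · subst hi
        rw [Function.update_self] at this
        exact Finset.mem_of_mem_erase this
      · rwa [Function.update_of_ne hi] at this
    · push Not at h1
      choose x hx using hne
      refine ⟨x, hx, ?_⟩
      have h2 := h Finset.univ
      rw [Finset.card_univ] at h2
      refine h2.trans (Nat.add_le_add_left (Submodule.finrank_mono (span_mono ?_)) _)
      intro v hv
      obtain ⟨i, _, hvi⟩ := Set.mem_iUnion₂.mp hv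
      exact ⟨i, h1 i _ (hx i) _ hvi⟩

end Pool.Agent.Lib.RkQ
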