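import Pool.Agent.Lib.RkQ.Lower
import Pool.Agent.Lib.RkQ.Constr
import Pool.Agent.Lib.RkQ.Rado
import Pool.Agent.Lib.RkQ.Cyc
import Pool.Agent.Lib.RkQ.Interp
import Pool.Agent.Lib.RkQ.Iso2

/-!
# The least `p`-rank of a regulating quotient
-/

namespace Pool.Agent.Lib.RkQ

open Pool.Agent.Lib.C8da183
open scoped Classical

set_option linter.unusedSectionVars false

variable {V : Type*} [AddCommGroup V] [Module ℚ V]
variable {G C : AddSubgroup V} {J : Type*} [Fintype J] [DecidableEq J] {b : J → V}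
  {f : J → V →ₗ[ℚ] ℚ} {p : ℕ}

/-- `{v ∈ G : the class of v is in T}` -/
noncomputable def pre (p : ℕ) (G : AddSubgroup V) (T : Submodule (ZMod p) (Mp p G)) : AddSubgroup V :=
  (T.toAddSubgroup.comap (QuotientAddGroup.mk' ((pm p G).addSubgroupOf G))).map G.subtype

theorem mem_pre {T : Submodule (ZMod p) (Mp p G)} {v : V} (hv : v ∈ G) :
    v ∈ pre p G T ↔ cls p hv ∈ T := by
  constructor
  · rintro ⟨z, hz, e⟩
    have : z = ⟨v, hv⟩ := Subtype.ext e
    rw [this] at hz
    exact hz
  · exact fun h => ⟨⟨v, hv⟩, h, rfl⟩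

theorem pm_le_pre {T : Submodule (ZMod p) (Mp p G)} : pm p G ≤ pre p G T := by
  intro v hv
  rw [mem_pre (pm_le hv), (cls_eq_zero _).mpr hv]
  exact T.zero_mem

theorem sub_le_of {T : Submodule (ZMod p) (Mp p G)} {H : AddSubgroup V} (h : H ≤ pre p G T) :
    sub p G H ≤ T := by
  rintro _ ⟨z, hz, rfl⟩
  exact (mem_pre z.2).mp (h (AddSubgroup.mem_addSubgroupOf.mp hz))

theorem hmem (R : Ref G C b f) {g : J → ℚ} (hg : Gen C b p g) {w : J → V}
    (hw : ∀ j, w j ∈ sharp G (b j)) (j : J) : g j • b j + w j ∈ G :=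
  G.add_mem (R.le (hg.mem j)) (sharp_le (hw j))

/-- the classes of the elements `g j • b j + w j` -/
noncomputable def xw (R : Ref G C b f) {g : J → ℚ} (hg : Gen C b p g) {w : J → V}
    (hw : ∀ j, w j ∈ sharp G (b j)) (j : {j // j ∈ Jp C b p}) : Mp p G := cls p (hmem R hg hw j)

theorem exists_w' (R : Ref G C b f) (hp : p.Prime) {g : J → ℚ} (hg : Gen C b p g) {d : ℕ}
    (h : ∀ s ⊆ Jp C b p, p ^ s.card ≤ p ^ d *
      (pm p G).relIndex (⨆ j ∈ s, comp C (b j) ⊔ sharp G (b j))) :
    ∃ (w : J → V) (hw : ∀ j, w j ∈ sharp G (b j)), (Jp C b p).card ≤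
      d + Module.finrank (ZMod p) (Submodule.span (ZMod p) (Set.range (xw R hg hw))) := by
  have : Fact p.Prime := ⟨hp⟩
  have := finite_Mp R hp
  have hmem : ∀ (j : J) (w : V) (hw : w ∈ sharp G (b j)), g j • b j + w ∈ G := fun j w hw =>
    G.add_mem (R.le (hg.mem j)) (sharp_le hw)
  set A : {j // j ∈ Jp C b p} → Finset (Mp p G) := fun j =>
    (Set.toFinite {y | ∃ w, ∃ hw : w ∈ sharp G (b j), y = cls p (hmem j w hw)}).toFinset with hA
  have memA : ∀ j y, y ∈ A j ↔ ∃ w, ∃ hw : w ∈ sharp G (b j), y = cls p (hmem j w hw) := by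
    intro j y
    simp only [hA, Set.Finite.mem_toFinset, Set.mem_ofPred_eq]
  obtain ⟨x, hx, hcard⟩ := rado (K := ZMod p) A (fun j => ⟨cls p (hmem j 0 (AddSubgroup.zero_mem _)),
    (memA j _).mpr ⟨0, AddSubgroup.zero_mem _, rfl⟩⟩) d (by
      intro s'
      set s : Finset J := s'.map (Function.Embedding.subtype _) with hs
      have hsJ : s ⊆ Jp C b p := by
        intro j hj
        rw [hs, Finset.mem_map] at hj
        obtain ⟨i, _, rfl⟩ := hj
        exact i.2
      have h1 := h s hsJ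
      set E : AddSubgroup V := ⨆ j ∈ s, comp C (b j) ⊔ sharp G (b j) with hE
      have hEG : E ≤ G := by
        refine iSup₂_le fun j _ => sup_le ?_ sharp_le
        exact inf_le_left.trans R.le
      rw [relIndex_eq R hp hEG, ← pow_add] at h1
      have h2 : s.card ≤ d + Module.finrank (ZMod p) (sub p G E) :=
        (Nat.pow_le_pow_iff_right hp.one_lt).mp h1
      rw [hs, Finset.card_map] at h2
      refine h2.trans (Nat.add_le_add_left (Submodule.finrank_mono ?_) _)
      set T := Submodule.span (ZMod p) (⋃ i ∈ s', (A i : Set (Mp p G))) with hT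
      refine sub_le_of (iSup₂_le fun j hj => ?_)
      rw [hs, Finset.mem_map] at hj
      obtain ⟨i, hi, rfl⟩ := hj
      change comp C (b i) ⊔ sharp G (b i) ≤ _
      have hAT : ∀ y ∈ A i, y ∈ T := fun y hy =>
        Submodule.subset_span (Set.mem_iUnion₂.mpr ⟨i, hi, hy⟩)
      have hgen : g i • b i ∈ pre p G T := by
        rw [mem_pre (R.le (hg.mem i))]
        refine hAT _ ((memA i _).mpr ⟨0, AddSubgroup.zero_mem _, ?_⟩)
        congr 1
        simp
      have hpmT : pm p G ≤ pre p G T := pm_le_pre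
      refine sup_le ?_ ?_
      · rintro v ⟨hvC, hv⟩
        have hv' : v ∈ Submodule.span ℚ {b i} := hv
        obtain ⟨q, rfl⟩ := Submodule.mem_span_singleton.mp hv'
        obtain ⟨z, q', hq', e, _⟩ := hg.cyc R hp i hvC
        rw [e, add_smul, mul_smul, Int.cast_smul_eq_zsmul]
        refine AddSubgroup.add_mem _ (AddSubgroup.zsmul_mem _ hgen z)
          (hpmT ⟨q' • b i, R.le hq', ?_⟩)
        change p • (q' • b i) = _
        rw [nsmul_eq, smul_smul]
      · intro w hw
        have h3 : w = (g i • b i + w) - g i • b i := by abel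
        rw [h3]
        refine AddSubgroup.sub_mem _ ?_ hgen
        rw [mem_pre (hmem i w hw)]
        exact hAT _ ((memA i _).mpr ⟨w, hw, rfl⟩))
  have hx' : ∀ i : {j // j ∈ Jp C b p}, ∃ w, ∃ hw : w ∈ sharp G (b i), x i = cls p (hmem i w hw) :=
    fun i => (memA i _).mp (hx i)
  choose w hw hwx using hx'
  have hw0 : ∀ j, (if hj : j ∈ Jp C b p then w ⟨j, hj⟩ else 0) ∈ sharp G (b j) := by
    intro j
    by_cases hj : j ∈ Jp C b p
    · simp only [hj, dif_pos]
      exact hw ⟨j, hj⟩
    · simp only [hj, dif_neg, not_false_eq_true]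
      exact AddSubgroup.zero_mem _
  refine ⟨fun j => if hj : j ∈ Jp C b p then w ⟨j, hj⟩ else 0, hw0, ?_⟩
  rw [Fintype.card_coe] at hcard
  have hxx : xw R hg hw0 = x := by
    ext i
    rw [hwx i]
    unfold xw
    congr 1
    simp only [i.2, dif_pos]
  rw [hxx]
  exact hcard

theorem sub_eq (R : Ref G C b f) (hC : IsRegulating G C) (hp : p.Prime) {g : J → ℚ}
    (hg : Gen C b p g) {w : J → V} (hw : ∀ j, w j ∈ sharp G (b j)) {D : V → AddSubgroup V}
    (hD : Fam G D)
    (h : ∀ j ∈ Jp C b p, ∃ d ∈ D (b j), (g j • b j + w j) - d ∈ pm p G ∧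
      (g j • b j + w j) - d ∈ sharp G (b j)) :
    sub p G (⨆ x : {x : V // x ∈ G ∧ x ≠ 0}, D x) =
      Submodule.span (ZMod p) (Set.range (xw R hg hw)) := by
  set C' : AddSubgroup V := ⨆ x : {x : V // x ∈ G ∧ x ≠ 0}, D x with hC'
  set T := Submodule.span (ZMod p) (Set.range (xw R hg hw)) with hT
  have hgup : ∀ j, g j • b j ∈ up G (b j) := fun j =>
    ⟨R.le (hg.mem j), (TypeLE.refl G (b j)).smul_right _⟩
  have hex : ∀ j, ∃ d ∈ D (b j), ∃ t ∈ sharp G (b j), d + t = g j • b j ∧
      (j ∈ Jp C b p → (g j • b j + w j) - d ∈ pm p G) := by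
    intro j
    by_cases hj : j ∈ Jp C b p
    · obtain ⟨d, hd, h1, h2⟩ := h j hj
      refine ⟨d, hd, ((g j • b j + w j) - d) - w j, AddSubgroup.sub_mem _ h2 (hw j), by abel,
        fun _ => h1⟩
    · have h1 := hgup j
      rw [← (hD.prop _ (R.bG j) (R.b_ne_zero j)).2.1] at h1
      obtain ⟨d, hd, t, ht, e⟩ := AddSubgroup.mem_sup.mp h1
      exact ⟨d, hd, t, ht, e, fun h => absurd h hj⟩
  choose d hd t ht hdt hdp using hex
  have hpmT : pm p G ≤ pre p G T := pm_le_pre
  apply le_antisymm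
  · refine sub_le_of (span_of R hC hp hD hC' hg hd ht hdt _ hpmT fun j hj => ?_)
    have h1 : d j = (g j • b j + w j) - ((g j • b j + w j) - d j) := by abel
    rw [h1]
    refine AddSubgroup.sub_mem _ ?_ (hpmT (hdp j hj))
    rw [mem_pre (hmem R hg hw j)]
    exact Submodule.subset_span ⟨⟨j, hj⟩, rfl⟩
  · rw [hT, Submodule.span_le]
    rintro _ ⟨⟨j, hj⟩, rfl⟩
    have hdG : d j ∈ G := up_le (hD.le_up (R.bG j) (R.b_ne_zero j) (hd j))
    have hdC : d j ∈ C' :=
      (le_iSup (fun x : {x : V // x ∈ G ∧ x ≠ 0} => D x) ⟨b j, R.bG j, R.b_ne_zero j⟩) (hd j)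
    have h1 : xw R hg hw ⟨j, hj⟩ = cls p hdG := by
      unfold xw cls
      rw [QuotientAddGroup.eq, AddSubgroup.mem_addSubgroupOf]
      have h2 : -(g j • b j + w j) + d j = -((g j • b j + w j) - d j) := by abel
      change -(g j • b j + w j) + d j ∈ pm p G
      rw [h2]
      exact AddSubgroup.neg_mem _ (hdp j hj)
    rw [h1]
    exact mem_sub hdG hdC

theorem exists_w_of_reg (R : Ref G C b f) (hC : IsRegulating G C) (hp : p.Prime) {g : J → ℚ}
    (hg : Gen C b p g) {C' : AddSubgroup V} (hC' : IsRegulating G C') :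
    ∃ (w : J → V) (hw : ∀ j, w j ∈ sharp G (b j)), sub p G C' =
      Submodule.span (ZMod p) (Set.range (xw R hg hw)) := by
  obtain ⟨D, hD, rfl⟩ := isRegulating_iff.mp hC'
  have hex : ∀ j, ∃ d ∈ D (b j), ∃ t ∈ sharp G (b j), d + t = g j • b j := by
    intro j
    have h1 : g j • b j ∈ up G (b j) := ⟨R.le (hg.mem j), (TypeLE.refl G (b j)).smul_right _⟩
    rw [← (hD.prop _ (R.bG j) (R.b_ne_zero j)).2.1] at h1
    exact AddSubgroup.mem_sup.mp h1
  choose d hd t ht hdt using hex
  refine ⟨fun j => -t j, fun j => AddSubgroup.neg_mem _ (ht j), ?_⟩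
  refine sub_eq R hC hp hg _ hD fun j _ => ⟨d j, hd j, ?_⟩
  have h1 : g j • b j + -t j - d j = 0 := by rw [← hdt j]; abel
  rw [h1]
  exact ⟨AddSubgroup.zero_mem _, AddSubgroup.zero_mem _⟩

theorem exist (hG : IsACD G) (R : Ref G C b f) (hC : IsRegulating G C) (d : ℕ → ℕ)
    (h : ∀ p, p.Prime → (∀ s ⊆ Jp C b p, p ^ s.card ≤ p ^ d p *
      (pm p G).relIndex (⨆ j ∈ s, comp C (b j) ⊔ sharp G (b j))) ∧
      ∃ C'', IsRegulating G C'' ∧ p ^ d p ≤ (C'' ⊔ pm p G).relIndex G) :
    ∃ C', IsRegulating G C' ∧ ∀ p, p.Prime → (C' ⊔ pm p G).relIndex G = p ^ d p := by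
  choose g hg using fun p => exists_gen R p
  have hex : ∀ p, ∃ (w : J → V) (hw : ∀ j, w j ∈ sharp G (b j)), p.Prime →
      Module.finrank (ZMod p) (Submodule.span (ZMod p) (Set.range (xw R (hg p) hw))) + d p =
        (Jp C b p).card := by
    intro p
    by_cases hp : p.Prime
    · have : Fact p.Prime := ⟨hp⟩
      have := finite_Mp R hp
      obtain ⟨h1, C'', hC'', h2⟩ := h p hp
      obtain ⟨w1, hw1, h3⟩ := exists_w' R hp (hg p) h1
      obtain ⟨w0, hw0, h4⟩ := exists_w_of_reg R hC hp (hg p) hC''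
      have h5 := relIndex_mul R hp hC''.le
      have h6 : Module.finrank (ZMod p) (sub p G C'') + d p ≤ (Jp C b p).card := by
        have : p ^ (Module.finrank (ZMod p) (sub p G C'') + d p) ≤ p ^ (Jp C b p).card := by
          rw [pow_add, ← h5]
          exact Nat.mul_le_mul_left _ h2
        exact (Nat.pow_le_pow_iff_right hp.one_lt).mp this
      rw [h4] at h6
      obtain ⟨T, hT⟩ := interp (K := ZMod p) (xw R (hg p) hw0) (xw R (hg p) hw1) ((Jp C b p).card - d p)
        (by omega) (by omega)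
      set T' : Finset J := T.map (Function.Embedding.subtype _) with hT'
      refine ⟨fun j => if j ∈ T' then w1 j else w0 j, fun j => ?_, fun _ => ?_⟩
      · by_cases hj : j ∈ T'
        · simp only [hj, if_true]; exact hw1 j
        · simp only [hj, if_false]; exact hw0 j
      · have hmT : ∀ i : {j // j ∈ Jp C b p}, (i : J) ∈ T' ↔ i ∈ T := by
          intro i
          rw [hT', Finset.mem_map]
          constructor
          · rintro ⟨k, hk, e⟩
            have : k = i := Subtype.ext e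
            rw [← this]; exact hk
          · intro hi; exact ⟨i, hi, rfl⟩
        have h7 : (fun i => if i ∈ T then xw R (hg p) hw1 i else xw R (hg p) hw0 i) =
            xw R (hg p) (w := fun j => if j ∈ T' then w1 j else w0 j) (fun j => by
              by_cases hj : j ∈ T'
              · simp only [hj, if_true]; exact hw1 j
              · simp only [hj, if_false]; exact hw0 j) := by
          ext i
          by_cases hi : i ∈ T
          · simp only [hi, if_true]
            unfold xw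
            congr 1
            simp only [(hmT i).mpr hi, if_true]
          · simp only [hi, if_false]
            unfold xw
            congr 1
            simp only [mt (hmT i).mp hi, if_false]
        rw [h7] at hT
        rw [hT]
        omega
    · exact ⟨0, fun j => AddSubgroup.zero_mem _, fun h => absurd h hp⟩
  choose w hw hwH using hex
  obtain ⟨D', hD', hcon⟩ := construct R hC (C.relIndex G).primeFactors
    (fun p hp => Nat.prime_of_mem_primeFactors hp) g hg w hw
  set C' : AddSubgroup V := ⨆ x : {x : V // x ∈ G ∧ x ≠ 0}, D' x with hCD'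
  have hC' : IsRegulating G C' := isRegulating_iff.mpr ⟨D', hD', rfl⟩
  refine ⟨C', hC', fun p hp => ?_⟩
  have h1 := relIndex_mul R hp hC'.le
  by_cases hpP : p ∈ (C.relIndex G).primeFactors
  · have h2 := sub_eq R hC hp (hg p) (hw p) hD' (hcon p hpP)
    have h3 := hwH p hp
    rw [← h2] at h3
    rw [← h3, pow_add] at h1
    exact Nat.eq_of_mul_eq_mul_left (Nat.pos_of_ne_zero (pow_ne_zero _ hp.ne_zero)) h1
  · have h0 : ∀ K, IsRegulating G K → (K ⊔ pm p G).relIndex G = 1 := by
      intro K hK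
      have h1 := relIndex_mul R hp hK.le
      have h2 : (K ⊔ pm p G).relIndex G ∣ p ^ (Jp C b p).card := ⟨_, by rw [← h1, mul_comm]⟩
      have h3 : (K ⊔ pm p G).relIndex G ∣ C.relIndex G := by
        rw [(hC.relIndex_eq hG hK).1]
        exact AddSubgroup.relIndex_dvd_of_le_left G le_sup_left
      have h4 : Nat.Coprime (p ^ (Jp C b p).card) (C.relIndex G) := by
        refine Nat.Coprime.pow_left _ ?_
        rw [hp.coprime_iff_not_dvd]
        intro h5
        exact hpP (Nat.mem_primeFactors.mpr ⟨hp, h5, (hC.relIndex_eq hG hC).2⟩)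
      exact Nat.eq_one_of_dvd_coprimes h4 h2 h3
    obtain ⟨_, C'', hC'', h2⟩ := h p hp
    rw [h0 C'' hC''] at h2
    rw [h0 C' hC']
    exact le_antisymm (Nat.one_le_pow _ _ hp.pos) h2

theorem index_range {C' : AddSubgroup V} (hC' : C' ≤ G) :
    (nsmulAddMonoidHom (α := G ⧸ C'.addSubgroupOf G) p).range.index =
      (C' ⊔ pm p G).relIndex G := by
  rw [← AddSubgroup.index_comap_of_surjective _
    (QuotientAddGroup.mk'_surjective (C'.addSubgroupOf G)), AddSubgroup.relIndex]
  congr 1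
  ext ⟨v, hv⟩
  rw [AddSubgroup.mem_comap, AddSubgroup.mem_addSubgroupOf]
  constructor
  · rintro ⟨y, hy⟩
    induction y using QuotientAddGroup.induction_on with
    | H z =>
      have h1 : ((p • z : G) : G ⧸ C'.addSubgroupOf G) = ((⟨v, hv⟩ : G) : G ⧸ C'.addSubgroupOf G) :=
        hy
      rw [QuotientAddGroup.eq, AddSubgroup.mem_addSubgroupOf] at h1
      have h2 : v = (-(p • (z : V)) + v) + p • (z : V) := by abel
      change v ∈ _
      rw [h2]
      exact AddSubgroup.add_mem _ (AddSubgroup.mem_sup_left h1)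
        (AddSubgroup.mem_sup_right ⟨z, z.2, rfl⟩)
  · intro h
    obtain ⟨c, hc, _, ⟨u, hu, rfl⟩, e⟩ := AddSubgroup.mem_sup.mp h
    refine ⟨((⟨u, hu⟩ : G) : G ⧸ C'.addSubgroupOf G), ?_⟩
    change (((p • ⟨u, hu⟩ : G)) : G ⧸ C'.addSubgroupOf G) =
      ((⟨v, hv⟩ : G) : G ⧸ C'.addSubgroupOf G)
    rw [QuotientAddGroup.eq, AddSubgroup.mem_addSubgroupOf]
    have h2 : -(p • u) + v = c := by
      have h3 : c + p • u = v := e
      rw [← h3]; abel
    change -(p • u) + v ∈ C'
    rw [h2]
    exact hc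

theorem full_of_reg (hG : IsACD G) {C' : AddSubgroup V} (hC' : IsRegulating G C') :
    IsFull G (C' ⊔ pm p G) := by
  have h := hC'.isFull hG
  rw [isFull_iff] at h ⊢
  refine ⟨sup_le h.1 pm_le, fun h0 => ?_, fun x hx hx0 => ?_⟩
  · exact h.2.1 (AddSubgroup.relIndex_eq_zero_of_le_left le_sup_left h0)
  · exact (h.2.2 x hx hx0).trans (sup_le_sup_right le_sup_left _)

theorem reg_iff_full (hG : IsACD G) (hC : IsRegulating G C) {d : ℕ} :
    (∃ C'', IsRegulating G C'' ∧ p ^ d ≤ (C'' ⊔ pm p G).relIndex G) ↔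
      ∃ K, IsFull G K ∧ pm p G ≤ K ∧ p ^ d ≤ K.relIndex G := by
  constructor
  · rintro ⟨C', hC', h⟩
    exact ⟨C' ⊔ pm p G, full_of_reg hG hC', le_sup_right, h⟩
  · rintro ⟨K, hK, hpK, h⟩
    obtain ⟨C', hC', hle⟩ := hK.exists_regulating_le hG hC
    refine ⟨C', hC', h.trans (Nat.le_of_dvd (Nat.pos_of_ne_zero ?_)
      (AddSubgroup.relIndex_dvd_of_le_left G (sup_le hle hpK)))⟩
    exact (full_of_reg hG hC').2.1

theorem rank_iff (hG : IsACD G) (R : Ref G C b f) (hC : IsRegulating G C) (d : ℕ → ℕ) :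
    (∃ C', IsRegulating G C' ∧ ∀ p, p.Prime →
      (nsmulAddMonoidHom (α := G ⧸ C'.addSubgroupOf G) p).range.index = p ^ d p) ↔
      ∀ p, p.Prime → RankCond G C b p (d p) ∧ FullCond G p (d p) := by
  constructor
  · rintro ⟨C', hC', h⟩ p hp
    have h2 := h p hp
    rw [index_range hC'.le] at h2
    refine ⟨fun s hs => ?_, (reg_iff_full hG hC).mp ⟨C', hC', h2.ge⟩⟩
    have h1 := lower hG R hC hp hC' (s := s) (fun j hj => mem_Jp.mpr (hs j hj))
    rwa [h2] at h1
  · intro h
    obtain ⟨C', hC', h1⟩ := exist hG R hC d (fun p hp =>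
      ⟨fun s hs => (h p hp).1 s (fun j hj => mem_Jp.mp (hs hj)),
        (reg_iff_full hG hC).mpr (h p hp).2⟩)
    refine ⟨C', hC', fun p hp => ?_⟩
    rw [index_range hC'.le]
    exact h1 p hp

theorem rank_le_iff (hG : IsACD G) (R : Ref G C b f) (hC : IsRegulating G C) (d : ℕ → ℕ) :
    (∃ C', IsRegulating G C' ∧ ∀ p, p.Prime →
      (nsmulAddMonoidHom (α := G ⧸ C'.addSubgroupOf G) p).range.index ≤ p ^ d p) ↔
      ∀ p, p.Prime → RankCond G C b p (d p) := by
  constructor
  · rintro ⟨C', hC', h⟩ p hp s hs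
    have h1 := lower hG R hC hp hC' (s := s) (fun j hj => mem_Jp.mpr (hs j hj))
    have h2 := h p hp
    rw [index_range hC'.le] at h2
    exact h1.trans (Nat.mul_le_mul_right _ h2)
  · intro h
    have hr : ∀ p, ∃ r, p.Prime → (C ⊔ pm p G).relIndex G = p ^ r := by
      intro p
      by_cases hp : p.Prime
      · have h1 := relIndex_mul R hp hC.le
        obtain ⟨r, _, e⟩ := (Nat.dvd_prime_pow hp).mp
          (⟨_, by rw [← h1, mul_comm]⟩ : (C ⊔ pm p G).relIndex G ∣ p ^ (Jp C b p).card)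
        exact ⟨r, fun _ => e⟩
      · exact ⟨0, fun h => absurd h hp⟩
    choose r hr using hr
    obtain ⟨C', hC', h1⟩ := (rank_iff hG R hC (fun p => min (d p) (r p))).mpr (fun p hp => by
      refine ⟨?_, (reg_iff_full hG hC).mp ⟨C, hC, ?_⟩⟩
      · rcases le_total (d p) (r p) with hle | hle
        · rw [min_eq_left hle]; exact h p hp
        · rw [min_eq_right hle]
          intro s hs
          have h1 := lower hG R hC hp hC (s := s) (fun j hj => mem_Jp.mpr (hs j hj))
          rwa [hr p hp] at h1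
      · rw [hr p hp]
        exact Nat.pow_le_pow_right hp.pos (min_le_right _ _))
    refine ⟨C', hC', fun p hp => ?_⟩
    rw [h1 p hp]
    exact Nat.pow_le_pow_right hp.pos (min_le_left _ _)

theorem cyclic_iff (hG : IsACD G) (R : Ref G C b f) (hC : IsRegulating G C) :
    (∃ C', IsRegulating G C' ∧ IsAddCyclic (G ⧸ C'.addSubgroupOf G)) ↔
      ∀ p, p.Prime → RankCond G C b p 1 := by
  rw [← rank_le_iff hG R hC (fun _ => 1)]
  have hfin : ∀ C', IsRegulating G C' → Finite (G ⧸ C'.addSubgroupOf G) := fun C' hC' =>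
    Nat.finite_of_card_ne_zero (hC'.relIndex_eq hG hC').2
  constructor
  · rintro ⟨C', hC', h⟩
    have := hfin C' hC'
    exact ⟨C', hC', fun p hp => by rw [pow_one]; exact index_le_of_isAddCyclic h hp⟩
  · rintro ⟨C', hC', h⟩
    have := hfin C' hC'
    exact ⟨C', hC', isAddCyclic_of_index_le fun p hp => by
      have := h p hp
      rwa [pow_one] at this⟩

theorem card_pow0 {Q : Type*} {p : ℕ} [Fact p.Prime] [AddCommGroup Q] [Finite Q]
    [Module (ZMod p) Q] : ∃ r, Nat.card Q = p ^ r := by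
  have h1 : Nat.card Q = Nat.card (ZMod p) ^ Module.finrank (ZMod p) Q :=
    Module.natCard_eq_pow_finrank
  rw [Nat.card_zmod] at h1
  exact ⟨_, h1⟩

theorem card_pow {Q : Type*} [AddCommGroup Q] [Finite Q] {p : ℕ} (hp : p.Prime)
    (h0 : ∀ x : Q, p • x = 0) : ∃ r, Nat.card Q = p ^ r := by
  have : Fact p.Prime := ⟨hp⟩
  let _ : Module (ZMod p) Q := AddCommGroup.zmodModule h0
  exact card_pow0

theorem exists_modCard {X : Type*} [AddCommGroup X] [Finite X] {p : ℕ} (hp : p.Prime) :
    ∃ r, (nsmulAddMonoidHom (α := X) p).range.index = p ^ r := by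
  refine card_pow (Q := X ⧸ (nsmulAddMonoidHom (α := X) p).range) hp fun x => ?_
  induction x using QuotientAddGroup.induction_on with
  | H z =>
    rw [← QuotientAddGroup.mk_nsmul, QuotientAddGroup.eq_zero_iff]
    exact ⟨z, rfl⟩

theorem index_congr {X Y : Type*} [AddCommGroup X] [AddCommGroup Y] (e : X ≃+ Y) :
    (nsmulAddMonoidHom (α := X) p).range.index = (nsmulAddMonoidHom (α := Y) p).range.index := by
  rw [← AddSubgroup.index_comap_of_surjective (f := e.toAddMonoidHom) _ e.surjective]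
  congr 1
  ext x
  constructor
  · rintro ⟨y, rfl⟩
    exact ⟨e y, (map_nsmul e p y).symm⟩
  · rintro ⟨y, hy⟩
    refine ⟨e.symm y, e.injective ?_⟩
    change e (p • e.symm y) = e x
    rw [map_nsmul, e.apply_symm_apply]
    exact hy

/-- Membership in the set of regulating quotients, for groups that are determined by their ranks. -/
theorem classify (hG : IsACD G) (R : Ref G C b f) (hC : IsRegulating G C)
    {X : Type*} [AddCommGroup X] [Finite X]
    (h4 : ∀ p r : ℕ, p.Prime → (nsmulAddMonoidHom (α := X) p).range.index = p ^ r →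
      r ≤ 1 ∨ (Nat.card X).factorization p ≤ r + 1 ∨ ¬ p ^ 4 ∣ C.relIndex G ∨
        (NoCube X p ∧ ∀ C', IsRegulating G C' → NoCube (G ⧸ C'.addSubgroupOf G) p)) :
    RegQuot G X ↔ Nat.card X = C.relIndex G ∧ ∀ p r : ℕ, p.Prime →
      (nsmulAddMonoidHom (α := X) p).range.index = p ^ r →
        RankCond G C b p r ∧ FullCond G p r := by
  constructor
  · rintro ⟨C', hC', ⟨e⟩⟩
    have hcard : Nat.card X = C.relIndex G := by
      rw [← Nat.card_congr e.toEquiv, (hC.relIndex_eq hG hC').1]; rfl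
    refine ⟨hcard, fun p r hp hr => ?_⟩
    rw [← index_congr e, index_range hC'.le] at hr
    refine ⟨fun s hs => ?_, (reg_iff_full hG hC).mp ⟨C', hC', hr.ge⟩⟩
    have h1 := lower hG R hC hp hC' (s := s) (fun j hj => mem_Jp.mpr (hs j hj))
    rwa [hr] at h1
  · rintro ⟨hcard, h⟩
    have hex : ∀ p, ∃ r, p.Prime → (nsmulAddMonoidHom (α := X) p).range.index = p ^ r := by
      intro p
      by_cases hp : p.Prime
      · obtain ⟨r, hr⟩ := exists_modCard (X := X) hp
        exact ⟨r, fun _ => hr⟩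
      · exact ⟨0, fun h => absurd h hp⟩
    choose r hr using hex
    obtain ⟨C', hC', h1⟩ := (rank_iff hG R hC r).mpr (fun p hp => h p (r p) hp (hr p hp))
    have hfin : Finite (G ⧸ C'.addSubgroupOf G) :=
      Nat.finite_of_card_ne_zero (hC'.relIndex_eq hG hC').2
    have hcard' : Nat.card (G ⧸ C'.addSubgroupOf G) = Nat.card X := by
      rw [hcard, (hC.relIndex_eq hG hC').1]; rfl
    obtain ⟨e⟩ := iso_gen (X := X) (Y := G ⧸ C'.addSubgroupOf G) hcard'.symm
      (fun p r hp hr => by
        rcases h4 p r hp hr with h5 | h5 | h5 | h5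
        · exact Or.inl h5
        · exact Or.inr (Or.inl h5)
        · have h6 : (Nat.card X).factorization p < 4 := by
            by_contra h2
            push Not at h2
            refine h5 ?_
            rw [← hcard]
            exact (hp.pow_dvd_iff_le_factorization Nat.card_pos.ne').mpr h2
          omega
        · exact Or.inr (Or.inr ⟨h5.1, h5.2 C' hC'⟩))
      (fun p hp => by rw [h1 p hp, hr p hp])
    exact ⟨C', hC', ⟨e.symm⟩⟩

end Pool.Agent.Lib.RkQ
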