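import Pool.Agent.Lib.C8da183.MaxFull

/-!
# Definitions for the ranks of regulating quotients
-/

namespace Pool.Agent.Lib.RkQ

open Pool.Agent.Lib.C8da183

variable {V : Type*} [AddCommGroup V] [Module ℚ V]

/-- `pL` -/
def pm (p : ℕ) (L : AddSubgroup V) : AddSubgroup V := L.map (nsmulAddMonoidHom (α := V) p)

/-- The group `C ∩ ℚ v` is not divisible by `p`. -/
def NDiv (C : AddSubgroup V) (v : V) (p : ℕ) : Prop := ∃ q : ℚ, q • v ∈ C ∧ (q / p) • v ∉ C

/-- The group `C ∩ ℚ v`. -/
def comp (C : AddSubgroup V) (v : V) : AddSubgroup V :=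
  C ⊓ (Submodule.span ℚ {v}).toAddSubgroup

/-- Every set `s` of summands `C ∩ ℚ (b j)` of `C` that are not divisible by `p` satisfies
`|s| ≤ d + dim T`, where `T` is the image in `G / pG` of the sum of these summands and of the
groups `G^#(type of b j)`, `j ∈ s`; `(pm p G).relIndex H` is the order of the image of `H` in
`G / pG`. -/
def RankCond {J : Type*} (G C : AddSubgroup V) (b : J → V) (p d : ℕ) : Prop :=
  ∀ s : Finset J, (∀ j ∈ s, NDiv C (b j) p) →
    p ^ s.card ≤ p ^ d * (pm p G).relIndex (⨆ j ∈ s, comp C (b j) ⊔ sharp G (b j))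

/-- There is a subgroup `K` of `G` with `pG ≤ K` and `K + G(t) = K + G^#(t)` for all types `t`, of
index at least `p ^ d`. -/
def FullCond (G : AddSubgroup V) (p d : ℕ) : Prop :=
  ∃ K, IsFull G K ∧ pm p G ≤ K ∧ p ^ d ≤ K.relIndex G

/-- `X` has no element of order `p ^ 3`. -/
def NoCube (X : Type*) [AddCommGroup X] (p : ℕ) : Prop := ∀ x : X, p ^ 3 • x = 0 → p ^ 2 • x = 0

end Pool.Agent.Lib.RkQ
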