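import Pool.Agent.Lib.C8da183.Exist
import Pool.Agent.Lib.C8da183.Cut
import Pool.Agent.Lib.RkQ.Defs

/-!
# The vector space `H / pH` and a completely decomposable subgroup
-/

namespace Pool.Agent.Lib.RkQ

open Pool.Agent.Lib.C8da183
open scoped Classical

set_option linter.unusedSectionVars false

variable {V : Type*} [AddCommGroup V] [Module ℚ V]

/-- `H / pH`. -/
abbrev Mp (p : ℕ) (H : AddSubgroup V) : Type _ := H ⧸ (pm p H).addSubgroupOf H

theorem mem_pm {p : ℕ} {H : AddSubgroup V} {v : V} : v ∈ pm p H ↔ ∃ h ∈ H, p • h = v := Iff.rfl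

theorem pm_le {p : ℕ} {H : AddSubgroup V} : pm p H ≤ H := by
  rintro _ ⟨h, hh, rfl⟩
  exact H.nsmul_mem hh p

theorem Mp_smul {p : ℕ} {H : AddSubgroup V} (x : Mp p H) : p • x = 0 := by
  induction x using QuotientAddGroup.induction_on with
  | H z =>
    rw [← QuotientAddGroup.mk_nsmul, QuotientAddGroup.eq_zero_iff, AddSubgroup.mem_addSubgroupOf]
    exact ⟨z, z.2, rfl⟩

noncomputable instance instModMp {p : ℕ} {H : AddSubgroup V} : Module (ZMod p) (Mp p H) :=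
  AddCommGroup.zmodModule Mp_smul

/-- the class of `v` -/
def cls (p : ℕ) {H : AddSubgroup V} {v : V} (hv : v ∈ H) : Mp p H := QuotientAddGroup.mk ⟨v, hv⟩

theorem cls_eq_zero {p : ℕ} {H : AddSubgroup V} {v : V} (hv : v ∈ H) :
    cls p hv = 0 ↔ v ∈ pm p H := by
  unfold cls
  rw [QuotientAddGroup.eq_zero_iff, AddSubgroup.mem_addSubgroupOf]

theorem cls_eq_mk {p : ℕ} {H : AddSubgroup V} {v : V} (hv : v ∈ H) :
    cls p hv = QuotientAddGroup.mk' ((pm p H).addSubgroupOf H) ⟨v, hv⟩ := rfl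

variable {G C : AddSubgroup V} {J : Type*} [Fintype J] [DecidableEq J] {b : J → V}
  {f : J → V →ₗ[ℚ] ℚ} {p : ℕ}

theorem cyc1 (R : Ref G C b f) (hp : p.Prime) {j : J} {g : ℚ} (hg : g • b j ∈ C)
    (hg' : (g / p) • b j ∉ C) {q : ℚ} (hq : q • b j ∈ C) :
    ∃ z : ℤ, ∃ q' : ℚ, q' • b j ∈ C ∧ q = z * g + p * q' := by
  set A : AddSubgroup ℚ := C.comap (LinearMap.toSpanSingleton ℚ V (b j)).toAddMonoidHom with hA
  have memA : ∀ q, q ∈ A ↔ q • b j ∈ C := fun q => by simp [hA, AddSubgroup.mem_comap]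
  have hp0 : (p : ℚ) ≠ 0 := by exact_mod_cast hp.ne_zero
  obtain ⟨z, q', hq', e⟩ := exists_cyc_of (A := A) ((memA 1).mpr (by rw [one_smul]; exact R.mem j))
    hp ((memA g).mpr hg) (fun a' ha' e => hg' (by
      rw [e, mul_div_cancel_left₀ _ hp0]; exact (memA _).mp ha')) q ((memA q).mpr hq)
  exact ⟨z, q', (memA _).mp hq', e⟩

theorem cyc0 {j : J} (hj : ¬ NDiv C (b j) p) (hp : p.Prime) {q : ℚ} (hq : q • b j ∈ C) :
    ∃ q' : ℚ, q' • b j ∈ C ∧ q = p * q' := by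
  have hp0 : (p : ℚ) ≠ 0 := by exact_mod_cast hp.ne_zero
  refine ⟨q / p, ?_, by field_simp⟩
  by_contra h
  exact hj ⟨q, hq, h⟩

/-- generators modulo `p` -/
structure Gen (C : AddSubgroup V) (b : J → V) (p : ℕ) (g : J → ℚ) : Prop where
  mem : ∀ j, g j • b j ∈ C
  nmem : ∀ j, NDiv C (b j) p → (g j / p) • b j ∉ C

theorem exists_gen (R : Ref G C b f) (p : ℕ) : ∃ g : J → ℚ, Gen C b p g := by
  have : ∀ j, ∃ q : ℚ, q • b j ∈ C ∧ (NDiv C (b j) p → (q / p) • b j ∉ C) := by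
    intro j
    by_cases h : NDiv C (b j) p
    · obtain ⟨q, h1, h2⟩ := h
      exact ⟨q, h1, fun _ => h2⟩
    · exact ⟨1, by rw [one_smul]; exact R.mem j, fun h' => absurd h' h⟩
  choose g hg using this
  exact ⟨g, fun j => (hg j).1, fun j => (hg j).2⟩

/-- Every multiple of `b j` in `C` is an integral multiple of the generator, modulo `p`. -/
theorem Gen.cyc {g : J → ℚ} (hg : Gen C b p g) (R : Ref G C b f) (hp : p.Prime) (j : J) {q : ℚ}
    (hq : q • b j ∈ C) : ∃ z : ℤ, ∃ q' : ℚ, q' • b j ∈ C ∧ q = z * g j + p * q' ∧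
      (¬ NDiv C (b j) p → z = 0) := by
  by_cases h : NDiv C (b j) p
  · obtain ⟨z, q', h1, h2⟩ := cyc1 R hp (hg.mem j) (hg.nmem j h) hq
    exact ⟨z, q', h1, h2, fun h' => absurd h h'⟩
  · obtain ⟨q', h1, h2⟩ := cyc0 h hp hq
    exact ⟨0, q', h1, by rw [h2]; simp, fun _ => rfl⟩

theorem Gen.dvd {g : J → ℚ} (hg : Gen C b p g) (hp : p.Prime) {j : J} (hj : NDiv C (b j) p)
    {z : ℤ} {q : ℚ} (hq : q • b j ∈ C) (e : z * g j = p * q) : (p : ℤ) ∣ z := by
  have hp0 : (p : ℚ) ≠ 0 := by exact_mod_cast hp.ne_zero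
  by_contra hz
  have hcop : IsCoprime z (p : ℤ) := by
    rw [isCoprime_comm, Prime.coprime_iff_not_dvd (Nat.prime_iff_prime_int.mp hp)]
    exact hz
  obtain ⟨u, v, h⟩ := hcop
  apply hg.nmem j hj
  have h' : (u : ℚ) * z + v * p = 1 := by exact_mod_cast h
  have h1 : g j / p = u * q + v * g j := by
    rw [div_eq_iff hp0]
    linear_combination (-g j) * h' + (u : ℚ) * e
  rw [h1, add_smul, mul_smul, mul_smul, Int.cast_smul_eq_zsmul, Int.cast_smul_eq_zsmul]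
  exact C.add_mem (C.zsmul_mem hq u) (C.zsmul_mem (hg.mem j) v)

end Pool.Agent.Lib.RkQ
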