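import Pool.Agent.Lib.RkQ.Base

/-!
# The dimension of `G / pG`
-/

namespace Pool.Agent.Lib.RkQ

open Pool.Agent.Lib.C8da183
open scoped Classical

set_option linter.unusedSectionVars false

variable {V : Type*} [AddCommGroup V] [Module ℚ V]
variable {G C : AddSubgroup V} {J : Type*} [Fintype J] [DecidableEq J] {b : J → V}
  {f : J → V →ₗ[ℚ] ℚ} {p : ℕ}

/-- The indices of the summands that are not divisible by `p`. -/
noncomputable def Jp (C : AddSubgroup V) (b : J → V) (p : ℕ) : Finset J :=
  Finset.univ.filter fun j => NDiv C (b j) p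

theorem mem_Jp {j : J} : j ∈ Jp C b p ↔ NDiv C (b j) p := by simp [Jp]

theorem Gen.mem_of {g : J → ℚ} (hg : Gen C b p g) (R : Ref G C b f) (hp : p.Prime)
    {S : AddSubgroup V} (hS : pm p C ≤ S) {c : V} (hc : c ∈ C)
    (h : ∀ j, f j c ≠ 0 → NDiv C (b j) p → g j • b j ∈ S) : c ∈ S := by
  rw [R.expand c (R.le hc)]
  refine S.sum_mem fun j _ => ?_
  by_cases hj : f j c = 0
  · rw [hj, zero_smul]; exact S.zero_mem
  obtain ⟨z, q', hq', e, hz⟩ := hg.cyc R hp j (R.coord c hc j)
  rw [e, add_smul]
  refine S.add_mem ?_ (hS ⟨q' • b j, hq', ?_⟩)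
  · by_cases hN : NDiv C (b j) p
    · rw [mul_smul, Int.cast_smul_eq_zsmul]
      exact S.zsmul_mem (h j hj hN) z
    · rw [hz hN]; simp [S.zero_mem]
  · change p • (q' • b j) = _
    rw [nsmul_eq, smul_smul]

theorem zmod_smul (hp : p.Prime) {H : AddSubgroup V} (a : ZMod p) (x : Mp p H) :
    a • x = a.val • x := by
  have : NeZero p := ⟨hp.ne_zero⟩
  conv_lhs => rw [← ZMod.natCast_zmod_val a]
  rw [Nat.cast_smul_eq_nsmul]

theorem relIndex_pm_C (R : Ref G C b f) (hp : p.Prime) :
    (pm p C).relIndex C = p ^ (Jp C b p).card := by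
  have : Fact p.Prime := ⟨hp⟩
  obtain ⟨g, hg⟩ := exists_gen R p
  set v : {j // j ∈ Jp C b p} → Mp p C := fun j => cls p (hg.mem j) with hv
  have li : LinearIndependent (ZMod p) v := by
    rw [Fintype.linearIndependent_iff]
    intro a ha i
    have h1 : cls p (H := C) (v := ∑ j : {j // j ∈ Jp C b p}, (a j).val • (g j • b j))
        (C.sum_mem fun j _ => C.nsmul_mem (hg.mem j) _) = 0 := by
      rw [← ha]
      simp only [zmod_smul hp, hv]
      rw [cls_eq_mk]
      have h2 : (⟨∑ j : {j // j ∈ Jp C b p}, (a j).val • (g j • b j),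
          C.sum_mem fun j _ => C.nsmul_mem (hg.mem j) _⟩ : C) =
          ∑ j : {j // j ∈ Jp C b p}, (a j).val • (⟨g j • b j, hg.mem j⟩ : C) := by
        ext
        simp
      rw [h2, map_sum]
      refine Finset.sum_congr rfl fun j _ => ?_
      rw [map_nsmul]
      rfl
    rw [cls_eq_zero, mem_pm] at h1
    obtain ⟨c', hc', e⟩ := h1
    have h3 := congrArg (f i) e
    rw [map_nsmul, map_sum, Finset.sum_eq_single i] at h3
    · rw [map_nsmul, map_smul, R.dual, if_pos rfl] at h3
      have h4 : (p : ℤ) ∣ ((a i).val : ℤ) := by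
        refine hg.dvd hp (mem_Jp.mp i.2) (R.coord c' hc' i) ?_
        push_cast
        rw [nsmul_eq_mul, smul_eq_mul, nsmul_eq_mul, mul_one] at h3
        exact h3.symm
      have h5 : p ∣ (a i).val := by exact_mod_cast h4
      rw [← ZMod.natCast_zmod_val (a i)]
      exact (ZMod.natCast_eq_zero_iff _ _).mpr h5
    · intro j _ hji
      rw [map_nsmul, map_smul, R.dual, if_neg (fun h => hji (Subtype.ext h).symm)]
      simp
    · intro h; exact absurd (Finset.mem_univ i) h
  have sp : ⊤ ≤ Submodule.span (ZMod p) (Set.range v) := by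
    intro x _
    induction x using QuotientAddGroup.induction_on with
    | H z =>
      set S : AddSubgroup V := (((Submodule.span (ZMod p) (Set.range v)).toAddSubgroup).comap
        (QuotientAddGroup.mk' ((pm p C).addSubgroupOf C))).map C.subtype with hS
      have h1 : (z : V) ∈ S := by
        refine hg.mem_of R hp ?_ z.2 ?_
        · rintro _ ⟨c, hc, rfl⟩
          refine ⟨p • ⟨c, hc⟩, ?_, rfl⟩
          have : (QuotientAddGroup.mk' ((pm p C).addSubgroupOf C)) (p • ⟨c, hc⟩) = 0 := by
            rw [map_nsmul]; exact Mp_smul _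
          change (QuotientAddGroup.mk' ((pm p C).addSubgroupOf C)) (p • ⟨c, hc⟩) ∈
            (Submodule.span (ZMod p) (Set.range v)).toAddSubgroup
          rw [this]
          exact AddSubgroup.zero_mem _
        · intro j _ hj
          exact ⟨⟨g j • b j, hg.mem j⟩, Submodule.subset_span ⟨⟨j, mem_Jp.mpr hj⟩, rfl⟩, rfl⟩
      obtain ⟨y, hy, e⟩ := h1
      have : y = z := Subtype.ext e
      rw [← this]
      exact hy
  have hfr : Module.finrank (ZMod p) (Mp p C) = (Jp C b p).card := by
    rw [Module.finrank_eq_card_basis (Module.Basis.mk li sp), Fintype.card_coe]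
  have : Module.Finite (ZMod p) (Mp p C) := Module.Finite.of_basis (Module.Basis.mk li sp)
  have := Module.natCard_eq_pow_finrank (K := ZMod p) (V := Mp p C)
  rw [hfr, Nat.card_zmod] at this
  exact this

theorem relIndex_pm_G (R : Ref G C b f) (hp : p.Prime) :
    (pm p G).relIndex G = p ^ (Jp C b p).card := by
  rw [← relIndex_pm_C R hp]
  have hinj : Function.Injective (nsmulAddMonoidHom (α := V) p) := by
    rw [injective_iff_map_eq_zero]
    intro v hv
    change p • v = 0 at hv
    rw [nsmul_eq, smul_eq_zero] at hv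
    rcases hv with h | h
    · exact absurd h (by exact_mod_cast hp.ne_zero)
    · exact h
  have h1 : (pm p C).relIndex (pm p G) = C.relIndex G :=
    AddSubgroup.relIndex_map_map_of_injective _ _ hinj
  have h2 := AddSubgroup.relIndex_mul_relIndex (pm p C) C G pm_le R.le
  have h3 := AddSubgroup.relIndex_mul_relIndex (pm p C) (pm p G) G
    (AddSubgroup.map_mono R.le) pm_le
  rw [h1, ← h2, mul_comm] at h3
  exact Nat.eq_of_mul_eq_mul_right (Nat.pos_of_ne_zero R.fin) h3

end Pool.Agent.Lib.RkQ
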