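import Pool.Agent.Lib.RkQ.Dim

/-!
# Ranks in `G / pG` and the lower bound
-/

namespace Pool.Agent.Lib.RkQ

open Pool.Agent.Lib.C8da183
open scoped Classical

set_option linter.unusedSectionVars false

variable {V : Type*} [AddCommGroup V] [Module ℚ V]
variable {G C : AddSubgroup V} {J : Type*} [Fintype J] [DecidableEq J] {b : J → V}
  {f : J → V →ₗ[ℚ] ℚ} {p : ℕ}

/-- The image of `H` in `G / pG`. -/
noncomputable def sub (p : ℕ) (G H : AddSubgroup V) : Submodule (ZMod p) (Mp p G) :=
  AddSubgroup.toZModSubmodule p (im (QuotientAddGroup.mk' ((pm p G).addSubgroupOf G)) H)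

theorem finite_Mp (R : Ref G C b f) (hp : p.Prime) : Finite (Mp p G) := by
  refine Nat.finite_of_card_ne_zero ?_
  have : Nat.card (Mp p G) = (pm p G).relIndex G := rfl
  rw [this, relIndex_pm_G R hp]
  exact pow_ne_zero _ hp.ne_zero

theorem mem_sub {H : AddSubgroup V} {v : V} (hv : v ∈ G) (hvH : v ∈ H) :
    cls p hv ∈ sub p G H :=
  ⟨⟨v, hv⟩, AddSubgroup.mem_addSubgroupOf.mpr hvH, rfl⟩

theorem sub_mono {H K : AddSubgroup V} (h : H ≤ K) : sub p G H ≤ sub p G K := by
  intro x hx
  exact im_mono _ h hx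

theorem relIndex_eq (R : Ref G C b f) (hp : p.Prime) {H : AddSubgroup V} (hH : H ≤ G) :
    (pm p G).relIndex H = p ^ Module.finrank (ZMod p) (sub p G H) := by
  have : Fact p.Prime := ⟨hp⟩
  have := finite_Mp R hp
  have h1 : Nat.card (sub p G H) = (pm p G).relIndex H := by
    have h2 : Nat.card (sub p G H) = Nat.card
      ((H.addSubgroupOf G).map (QuotientAddGroup.mk' ((pm p G).addSubgroupOf G))) := rfl
    rw [h2, ← AddSubgroup.relIndex_ker, QuotientAddGroup.ker_mk',
      AddSubgroup.relIndex_addSubgroupOf hH]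
  rw [← h1, Module.natCard_eq_pow_finrank (K := ZMod p), Nat.card_zmod]

theorem relIndex_mul (R : Ref G C b f) (hp : p.Prime) {H : AddSubgroup V} (hH : H ≤ G) :
    p ^ Module.finrank (ZMod p) (sub p G H) * (H ⊔ pm p G).relIndex G =
      p ^ (Jp C b p).card := by
  rw [← relIndex_eq R hp hH, ← relIndex_pm_G R hp,
    ← AddSubgroup.relIndex_mul_relIndex (pm p G) (H ⊔ pm p G) G le_sup_right
      (sup_le hH pm_le), AddSubgroup.relIndex_sup_right]

/-- The elements `d j` span `C'` modulo `pG`. -/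
theorem span_of (R : Ref G C b f) (hC : IsRegulating G C) (hp : p.Prime)
    {C' : AddSubgroup V} {D : V → AddSubgroup V} (hD : Fam G D)
    (hCD : C' = ⨆ x : {x : V // x ∈ G ∧ x ≠ 0}, D x) {g : J → ℚ} (hg : Gen C b p g)
    {d t : J → V} (hd : ∀ j, d j ∈ D (b j)) (ht : ∀ j, t j ∈ sharp G (b j))
    (hdt : ∀ j, d j + t j = g j • b j) (S : AddSubgroup V) (hS : pm p G ≤ S)
    (hdS : ∀ j ∈ Jp C b p, d j ∈ S) : C' ≤ S := by
  rw [hCD]
  refine iSup_le ?_
  rintro ⟨x, hx, hx0⟩ y hy
  change y ∈ D x at hy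
  set S2 : AddSubgroup V := (D x ⊓ S) ⊔ sharp G x with hS2
  have hyup := hD.le_up hx hx0 hy
  obtain ⟨c, hc, u, hu, e⟩ := AddSubgroup.mem_sup.mp (hC.up_le_sup hx hx0 hyup)
  have hcup : c ∈ up G x := by
    have : c = y - u := by rw [← e]; abel
    rw [this]
    exact AddSubgroup.sub_mem _ hyup (sharp_le_up hu)
  have hcG := R.le hc
  have hcS : c ∈ S2 := by
    rw [R.expand c hcG]
    refine S2.sum_mem fun j _ => ?_
    by_cases hj : f j c = 0
    · rw [hj, zero_smul]; exact S2.zero_mem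
    have hxj : TypeLE G x G (b j) := (R.mem_up_iff hcG).mp hcup j hj
    have hcj := R.coord c hc j
    by_cases hjx : TypeLE G (b j) G x
    · obtain ⟨z, q', hq', e', hz⟩ := hg.cyc R hp j hcj
      rw [e', add_smul]
      refine S2.add_mem ?_ ?_
      · by_cases hN : NDiv C (b j) p
        · rw [mul_smul, Int.cast_smul_eq_zsmul, ← hdt j]
          refine S2.zsmul_mem (S2.add_mem ?_ ?_) z
          · refine (le_sup_left : D x ⊓ S ≤ S2) ⟨?_, hdS j (mem_Jp.mpr hN)⟩
            rw [hD.eqv x hx (b j) (R.bG j) hx0 (R.b_ne_zero j) hxj hjx]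
            exact hd j
          · refine (le_sup_right : sharp G x ≤ S2) ?_
            rw [sharp_eq_of_equiv hxj hjx]
            exact ht j
        · rw [hz hN]; simp [S2.zero_mem]
      · have h1 : q' • b j ∈ up G x := ⟨R.le hq', hxj.smul_right _⟩
        rw [← (hD.prop x hx hx0).2.1] at h1
        obtain ⟨d', hd', t', ht', e2⟩ := AddSubgroup.mem_sup.mp h1
        have h2 : ((p : ℚ) * q') • b j = p • d' + p • t' := by
          rw [mul_smul, ← e2, smul_add, ← nsmul_eq, ← nsmul_eq]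
        rw [h2]
        refine S2.add_mem ((le_sup_left : D x ⊓ S ≤ S2) ⟨AddSubgroup.nsmul_mem _ hd' p,
          hS ⟨d', up_le (hD.le_up hx hx0 hd'), rfl⟩⟩) ?_
        exact (le_sup_right : sharp G x ≤ S2) (AddSubgroup.nsmul_mem _ ht' p)
    · refine (le_sup_right : sharp G x ≤ S2) ?_
      rw [R.mem_sharp_iff (R.le hcj)]
      intro i hi
      rw [map_smul, R.dual] at hi
      by_cases hij : i = j
      · rw [hij]; exact ⟨hxj, hjx⟩
      · rw [if_neg hij, smul_zero] at hi
        exact absurd rfl hi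
  have hyS : y ∈ S2 := by
    rw [← e]
    exact S2.add_mem hcS ((le_sup_right : sharp G x ≤ S2) hu)
  obtain ⟨y1, hy1, y2, hy2, e3⟩ := AddSubgroup.mem_sup.mp hyS
  have h5 : y2 ∈ D x ⊓ sharp G x := by
    refine ⟨?_, hy2⟩
    have : y2 = y - y1 := by rw [← e3]; abel
    change y2 ∈ D x
    rw [this]
    exact AddSubgroup.sub_mem _ hy hy1.1
  rw [(hD.prop x hx hx0).2.2, AddSubgroup.mem_bot] at h5
  rw [h5, add_zero] at e3
  rw [← e3]
  exact hy1.2

theorem lower (hG : IsACD G) (R : Ref G C b f) (hC : IsRegulating G C) (hp : p.Prime)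
    {C' : AddSubgroup V} (hC' : IsRegulating G C') {s : Finset J} (hs : s ⊆ Jp C b p) :
    p ^ s.card ≤ (C' ⊔ pm p G).relIndex G *
      (pm p G).relIndex (⨆ j ∈ s, comp C (b j) ⊔ sharp G (b j)) := by
  have : Fact p.Prime := ⟨hp⟩
  have := finite_Mp R hp
  have hCG' := hC'.le
  set E : AddSubgroup V := ⨆ j ∈ s, comp C (b j) ⊔ sharp G (b j) with hE
  have hEG : E ≤ G := by
    refine iSup₂_le fun j _ => sup_le ?_ sharp_le
    exact inf_le_left.trans R.le
  obtain ⟨D, hD, hCD⟩ := isRegulating_iff.mp hC'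
  obtain ⟨g, hg⟩ := exists_gen R p
  have hex : ∀ j, ∃ d ∈ D (b j), ∃ t ∈ sharp G (b j), d + t = g j • b j := by
    intro j
    have h1 : g j • b j ∈ up G (b j) := ⟨R.le (hg.mem j), (TypeLE.refl G (b j)).smul_right _⟩
    rw [← (hD.prop _ (R.bG j) (R.b_ne_zero j)).2.1] at h1
    exact AddSubgroup.mem_sup.mp h1
  choose d hd t ht hdt using hex
  have hdG : ∀ j, d j ∈ G := fun j => up_le (hD.le_up (R.bG j) (R.b_ne_zero j) (hd j))
  have key := fun S hS hdS => span_of R hC hp hD hCD hg hd ht hdt S hS hdS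
  set vd : {j // j ∈ Jp C b p \ s} → Mp p G := fun j => cls p (hdG j) with hvd
  set T : Submodule (ZMod p) (Mp p G) := sub p G E ⊔ Submodule.span (ZMod p) (Set.range vd)
    with hT
  have hWT : sub p G C' ≤ T := by
    set S : AddSubgroup V := (T.toAddSubgroup.comap
      (QuotientAddGroup.mk' ((pm p G).addSubgroupOf G))).map G.subtype with hS
    have hmemS : ∀ v (hv : v ∈ G), cls p hv ∈ T → v ∈ S := fun v hv h => ⟨⟨v, hv⟩, h, rfl⟩
    have h1 : C' ≤ S := by
      refine key S ?_ ?_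
      · intro v hv
        refine hmemS v (pm_le hv) ?_
        rw [(cls_eq_zero _).mpr hv]
        exact T.zero_mem
      · intro j hj
        refine hmemS _ (hdG j) ?_
        by_cases hjs : j ∈ s
        · refine (le_sup_left : sub p G E ≤ T) (mem_sub _ ?_)
          have h2 : comp C (b j) ⊔ sharp G (b j) ≤ E := le_iSup₂_of_le j hjs le_rfl
          apply h2
          have h3 : d j = g j • b j - t j := by rw [← hdt j]; abel
          rw [h3]
          refine AddSubgroup.sub_mem _ ?_ ((le_sup_right : sharp G (b j) ≤ _) (ht j))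
          refine (le_sup_left : comp C (b j) ≤ _) ⟨hg.mem j, ?_⟩
          exact Submodule.smul_mem _ _ (Submodule.subset_span rfl)
        · refine (le_sup_right : Submodule.span (ZMod p) (Set.range vd) ≤ T) ?_
          exact Submodule.subset_span ⟨⟨j, Finset.mem_sdiff.mpr ⟨hj, hjs⟩⟩, rfl⟩
    rintro _ ⟨z, hz, rfl⟩
    obtain ⟨z', hz', e⟩ := h1 (AddSubgroup.mem_addSubgroupOf.mp hz)
    have : z' = z := Subtype.ext e
    rw [← this]
    exact hz'
  have hfr : Module.finrank (ZMod p) (sub p G C') ≤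
      Module.finrank (ZMod p) (sub p G E) + (Jp C b p \ s).card := by
    refine (Submodule.finrank_mono hWT).trans ?_
    refine (Submodule.finrank_add_le_finrank_add_finrank _ _).trans ?_
    refine Nat.add_le_add_left ?_ _
    have := finrank_range_le_card (R := ZMod p) vd
    rwa [Fintype.card_coe] at this
  have h1 := relIndex_mul R hp hCG'
  rw [relIndex_eq R hp hEG]
  have h2 : (Jp C b p \ s).card + s.card = (Jp C b p).card := Finset.card_sdiff_add_card_eq_card hs
  have h3 : p ^ (Jp C b p \ s).card * p ^ s.card ≤ p ^ (Jp C b p \ s).card *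
      ((C' ⊔ pm p G).relIndex G * p ^ Module.finrank (ZMod p) (sub p G E)) := by
    rw [← pow_add, h2, ← h1]
    calc p ^ Module.finrank (ZMod p) (sub p G C') * (C' ⊔ pm p G).relIndex G
        ≤ p ^ (Module.finrank (ZMod p) (sub p G E) + (Jp C b p \ s).card) *
          (C' ⊔ pm p G).relIndex G :=
          Nat.mul_le_mul_right _ (Nat.pow_le_pow_right hp.pos hfr)
      _ = _ := by rw [pow_add]; ring
  exact Nat.le_of_mul_le_mul_left h3 (Nat.pos_of_ne_zero (pow_ne_zero _ hp.ne_zero))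

end Pool.Agent.Lib.RkQ
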